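import Pool.Agent.Q176.HT.Pre

/-! # Project HT of helper99, job BLK: the constants of a region exist -/

set_option autoImplicit false

namespace Pool.Agent.Q176.HT

open Finset Filter Topology
open Pool.Agent.W719.BS (D LL)
open Pool.Agent.Q99.FAL (bq hh)
open Pool.Agent.Q99.KN (sn bc LC bb Gm St ct S_LC)
open Pool.Agent.Q99.HT

section
variable {α : Fin 6 → ℝ}

theorem bc0 (N : ℕ) (n : ℂ) : bc N n 0 = 1 := by
  unfold bc D
  simp

/-- the values at the lattice points -/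
theorem blk_int (hF : Fr α) {ρ κ K C0 : ℝ} (hρ : 0 < ρ)
    (hb : ∀ i, ctr α i ≠ 0 → Brk (ctr α i) ρ κ K C0) (N A b C j : ℕ) (hN : 1 ≤ N) (hj : j ≤ b)
    (hc : Cmp α A b C) (h0 : |(A : ℝ) / N - α 0| < ρ / 4)
    (h1 : |(b : ℝ) / N - (α 1 + α 4)| < ρ / 4) (h2 : |(C : ℝ) / N - α 3| < ρ / 4)
    (h3 : |(j : ℝ) / N - α 1| < ρ / 4) (ζ : ℂ) (hζ : ‖ζ‖ < ρ / 4) :
    Tm N (N * ζ) A b C j =
      PB N α ![(A : ℂ) / N, (b : ℂ) / N, (C : ℂ) / N, (j : ℂ) / N] ζ := by
  obtain ⟨v, hv⟩ : ∃ v : Fin 4 → ℂ, v = ![(A : ℂ) / N, (b : ℂ) / N, (C : ℂ) / N, (j : ℂ) / N] :=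
    ⟨_, rfl⟩
  rw [← hv]
  obtain ⟨c0, c1, c3⟩ := hc
  have hpos : ∀ k : ℕ, ∀ i : Fin 6, (ctr α i = 0 → k = 0) → s6 i = 1 → |(k : ℝ) / N - ctr α i| < ρ →
      lf v i = (k : ℂ) / N → bc N ((N - 1 + N * ζ) / 2) k =
        if ctr α i = 0 then 1 else TB N (nz ζ i) (lf v i) := by
    intro k i g0 g1 g2 g3
    split_ifs with h
    · rw [g0 h, bc0]
    · rw [(hb i h).int N k hN ζ g2 (by linarith), g3]
      unfold nz
      rw [g1, one_mul]
  have hneg : ∀ k : ℕ, ∀ i : Fin 6, (ctr α i = 0 → k = 0) → s6 i = -1 →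
      |(k : ℝ) / N - ctr α i| < ρ → lf v i = (k : ℂ) / N → bc N ((N - 1 - N * ζ) / 2) k =
        if ctr α i = 0 then 1 else TB N (nz ζ i) (lf v i) := by
    intro k i g0 g1 g2 g3
    split_ifs with h
    · rw [g0 h, bc0]
    · have := (hb i h).int N k hN (-ζ) g2 (by rw [norm_neg]; linarith)
      rw [g3]
      unfold nz
      rw [g1]
      have e1 : ((N : ℂ) - 1 - N * ζ) / 2 = (N - 1 + N * (-ζ)) / 2 := by ring
      have e2 : (1 / 2 + -1 * ζ / 2 : ℂ) = 1 / 2 + -ζ / 2 := by ring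
      rw [e1, e2]
      exact this
  have a0 := abs_lt.1 h0
  have a1 := abs_lt.1 h1
  have a2 := abs_lt.1 h2
  have a3 := abs_lt.1 h3
  have hn := hF.nn
  have n0 := hn 0
  have n1 := hn 1
  have n3 := hn 3
  have n4 := hn 4
  have k2 := ctr2 hF
  have k5 := ctr5 hF
  have z2 : ctr α 2 = 0 → α 0 = 0 ∧ α 1 = 0 := by
    intro h
    rw [k2] at h
    exact ⟨by linarith, by linarith⟩
  have z5 : ctr α 5 = 0 → α 3 = 0 ∧ α 1 = 0 := by
    intro h
    rw [k5] at h
    exact ⟨by linarith, hF.z14.2 (by linarith)⟩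
  have hbj : ((b - j : ℕ) : ℝ) = (b : ℝ) - j := Nat.cast_sub hj
  have hbj' : ((b - j : ℕ) : ℂ) = (b : ℂ) - j := Nat.cast_sub hj
  have f0 := hneg A 0 (fun h => c0 h) rfl (by
    show |(A : ℝ) / N - α 0| < ρ
    linarith) (by rw [hv]; rfl)
  have f1 := hpos j 1 (fun h => by have := c1 h; omega) rfl (by
    show |(j : ℝ) / N - α 1| < ρ
    linarith) (by rw [hv]; rfl)
  have f2 := hpos (A + j) 2 (fun h => by
    have q1 := c0 (z2 h).1
    have q2 := c1 (z2 h).2
    omega) rfl (by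
    rw [k2]
    push_cast
    rw [add_div, abs_lt]
    constructor <;> linarith [a0.1, a0.2, a3.1, a3.2]) (by
      rw [hv]
      show (A : ℂ) / N + (j : ℂ) / N = _
      push_cast
      ring)
  have f3 := hpos C 3 (fun h => c3 h) rfl (by
    show |(C : ℝ) / N - α 3| < ρ
    linarith) (by rw [hv]; rfl)
  have f4 := hneg (b - j) 4 (fun h => by
    have q2 := c1 (hF.z14.2 h)
    omega) rfl (by
    show |((b - j : ℕ) : ℝ) / N - α 4| < ρ
    rw [hbj, sub_div, abs_lt]
    constructor <;> linarith [a1.1, a1.2, a3.1, a3.2]) (by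
      rw [hv]
      show (b : ℂ) / N - (j : ℂ) / N = _
      rw [hbj']
      ring)
  have f5 := hneg (C + (b - j)) 5 (fun h => by
    have q1 := c3 (z5 h).1
    have q2 := c1 (z5 h).2
    omega) rfl (by
    rw [k5, Nat.cast_add, hbj, add_div, sub_div, abs_lt]
    constructor <;> linarith [a1.1, a1.2, a2.1, a2.2, a3.1, a3.2]) (by
      rw [hv]
      show (C : ℂ) / N + ((b : ℂ) / N - (j : ℂ) / N) = _
      rw [Nat.cast_add, hbj']
      ring)
  unfold Tm PB
  rw [Fin.prod_univ_six, f0, f1, f2, f3, f4, f5]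
  ring

/-- the majorant -/
theorem blk_maj (hLC : S_LC) (hF : Fr α) {ρ κ K C0 : ℝ} (hρ : 0 < ρ) (hκ : 0 < κ) (hK : 0 < K)
    (hC : 1 ≤ C0) (hb : ∀ i, ctr α i ≠ 0 → Brk (ctr α i) ρ κ K C0) (N : ℕ) (hN : 1 ≤ N)
    (v : Fin 4 → ℂ) (hv : v ∈ Metric.ball (vC α) (ρ / 4)) (ha : Adm α v) (ζ : ℂ)
    (hζ : ‖ζ‖ < ρ / 4) : ‖PB N α v ζ‖ ≤ C0 ^ 6 * Real.exp (N * (v0 α + mR α (r3 v) -
      κ / 4 * (∑ i, ((v i).re - (vC α i).re) ^ 2 + ζ.re ^ 2) +
      8 * K * (∑ i, (v i).im ^ 2 + ζ.im ^ 2))) := by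
  have hv' : ‖v - vC α‖ < ρ / 4 := mem_ball_iff_norm.1 hv
  obtain ⟨d, hd⟩ : ∃ d : Fin 4 → ℝ, d = fun j => (v j).re - (vC α j).re := ⟨_, rfl⟩
  obtain ⟨m, hm⟩ : ∃ m : Fin 4 → ℝ, m = fun j => (v j).im := ⟨_, rfl⟩
  obtain ⟨E, hE⟩ : ∃ E : Fin 6 → ℝ, E = fun i => (if ctr α i = 0 then 0 else hh (ctr α i)) -
      cl α i * lr d i - cc α i * sr i * (ζ.re / 2) -
      κ * (if ctr α i = 0 then 0 else ((lr d i) ^ 2 + (sr i * ζ.re / 2) ^ 2)) +
      K * (if ctr α i = 0 then 0 else ((lr m i) ^ 2 + (sr i * ζ.im / 2) ^ 2)) := ⟨_, rfl⟩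
  have hre : ∀ i, (lf v i).re - ctr α i = lr d i := by
    intro i
    have h1 := lf_sub v (vC α) i
    rw [lf_vC hF i] at h1
    have h2 := congrArg Complex.re h1
    rw [Complex.sub_re, Complex.ofReal_re, lf_re (v - vC α)] at h2
    rw [h2, hd]
    rfl
  have him : ∀ i, (lf v i).im = lr m i := by
    intro i
    rw [lf_im, hm]
  have hnr : ∀ i, (nz ζ i).re - 1 / 2 = sr i * ζ.re / 2 := by
    intro i
    have e : nz ζ i = ((1 / 2 : ℝ) : ℂ) + ((sr i / 2 : ℝ) : ℂ) * ζ := by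
      unfold nz
      rw [s6_eq]
      push_cast
      ring
    rw [e, Complex.add_re, Complex.ofReal_re, Complex.re_ofReal_mul]
    ring
  have hni : ∀ i, (nz ζ i).im = sr i * ζ.im / 2 := by
    intro i
    have e : nz ζ i = ((1 / 2 : ℝ) : ℂ) + ((sr i / 2 : ℝ) : ℂ) * ζ := by
      unfold nz
      rw [s6_eq]
      push_cast
      ring
    rw [e, Complex.add_im, Complex.ofReal_im, Complex.im_ofReal_mul]
    ring
  have hfac : ∀ i, ‖(if ctr α i = 0 then 1 else TB N (nz ζ i) (lf v i) : ℂ)‖ ≤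
      C0 * Real.exp (N * E i) := by
    intro i
    have hEi : E i = (if ctr α i = 0 then 0 else hh (ctr α i)) -
      cl α i * lr d i - cc α i * sr i * (ζ.re / 2) -
      κ * (if ctr α i = 0 then 0 else ((lr d i) ^ 2 + (sr i * ζ.re / 2) ^ 2)) +
      K * (if ctr α i = 0 then 0 else ((lr m i) ^ 2 + (sr i * ζ.im / 2) ^ 2)) := by rw [hE]
    by_cases h : ctr α i = 0
    · rw [if_pos h, norm_one]
      rw [if_pos h, if_pos h, if_pos h, cl_zero h, cc_zero h] at hEi
      have : E i = 0 := by rw [hEi]; ring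
      rw [this, mul_zero, Real.exp_zero, mul_one]
      exact hC
    · rw [if_neg h]
      rw [if_neg h, if_neg h, if_neg h] at hEi
      have h1 := (hb i h).maj N hN (nz ζ i) (lf v i) (by rw [nz_near]; linarith)
        ((lf_near hF v i).trans_lt (by linarith))
      rw [hre, hnr, him, hni] at h1
      refine h1.trans (le_of_eq ?_)
      rw [hEi]
      congr 3
      unfold cl cc
      ring
  have hprod : ‖PB N α v ζ‖ ≤ ∏ i : Fin 6, (C0 * Real.exp (N * E i)) := by
    unfold PB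
    rw [norm_prod]
    exact Finset.prod_le_prod (fun i _ => norm_nonneg _) (fun i _ => hfac i)
  refine hprod.trans ?_
  rw [Finset.prod_mul_distrib, Finset.prod_const, Finset.card_univ, Fintype.card_fin,
    ← Real.exp_sum, ← Finset.mul_sum]
  refine mul_le_mul_of_nonneg_left (Real.exp_le_exp.2 ?_) (by positivity)
  refine mul_le_mul_of_nonneg_left ?_ (Nat.cast_nonneg N)
  have hsum : ∑ i, E i = v0 α - ∑ i, cl α i * lr d i - (∑ i, cc α i * sr i) * (ζ.re / 2) -
      κ * (∑ i, if ctr α i = 0 then 0 else ((lr d i) ^ 2 + (sr i * ζ.re / 2) ^ 2)) +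
      K * (∑ i, if ctr α i = 0 then 0 else ((lr m i) ^ 2 + (sr i * ζ.im / 2) ^ 2)) := by
    rw [hE, ← sum_hh hLC, Finset.sum_add_distrib, Finset.sum_sub_distrib, Finset.sum_sub_distrib,
      Finset.sum_sub_distrib, ← Finset.mul_sum, ← Finset.mul_sum, ← Finset.sum_mul]
  rw [hsum, lin2 hF, zero_mul, sub_zero]
  obtain ⟨ad0, ad1, ad3⟩ := ha
  have vc0 : (vC α 0).re = α 0 := by show ((α 0 : ℂ)).re = _; exact Complex.ofReal_re _
  have vc1 : (vC α 1).re = α 1 + α 4 := by
    show ((α 1 : ℂ) + (α 4 : ℂ)).re = _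
    rw [Complex.add_re, Complex.ofReal_re, Complex.ofReal_re]
  have vc2 : (vC α 2).re = α 3 := by show ((α 3 : ℂ)).re = _; exact Complex.ofReal_re _
  have vc3 : (vC α 3).re = α 1 := by show ((α 1 : ℂ)).re = _; exact Complex.ofReal_re _
  have d0 : α 0 = 0 → d 0 = 0 := by
    intro h
    rw [hd]
    show (v 0).re - (vC α 0).re = 0
    rw [ad0 h, vc0, h]
    simp
  have d1 : α 1 = 0 → d 1 = 0 ∧ d 3 = 0 := by
    intro h
    rw [hd]
    constructor
    · show (v 1).re - (vC α 1).re = 0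
      rw [(ad1 h).1, vc1, h, hF.z14.1 h]
      simp
    · show (v 3).re - (vC α 3).re = 0
      rw [(ad1 h).2, vc3, h]
      simp
  have d3 : α 3 = 0 → d 2 = 0 := by
    intro h
    rw [hd]
    show (v 2).re - (vC α 2).re = 0
    rw [ad3 h, vc2, h]
    simp
  have hl : -(∑ i, cl α i * lr d i) = mR α (r3 v) := by
    have h := lin1 hF (fun j => (d j : ℂ)) (fun h => by rw [d0 h]; rfl)
      (fun h => ⟨by rw [(d1 h).1]; rfl, by rw [(d1 h).2]; rfl⟩) (fun h => by rw [d3 h]; rfl)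
    simp only [lf_real] at h
    have h2 : -(∑ i, cl α i * lr d i) = ml α 0 * d 0 + ml α 1 * d 1 + ml α 2 * d 2 := by
      exact_mod_cast h
    rw [h2]
    unfold mR
    rw [Fin.sum_univ_three, hd]
    show ml α 0 * ((v 0).re - (vC α 0).re) + ml α 1 * ((v 1).re - (vC α 1).re) +
      ml α 2 * ((v 2).re - (vC α 2).re) = ml α 0 * ((v 0).re - α 0) +
      ml α 1 * ((v 1).re - (α 1 + α 4)) + ml α 2 * ((v 2).re - α 3)
    rw [vc0, vc1, vc2]
  have q1 := quad hF d ζ.re d0 d1 d3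
  have q2 := quad_up (α := α) m ζ.im
  have q3 := mul_le_mul_of_nonneg_left q1 hκ.le
  have q4 := mul_le_mul_of_nonneg_left q2 hK.le
  have e1 : ∑ i, ((v i).re - (vC α i).re) ^ 2 = ∑ i, d i ^ 2 := by rw [hd]
  have e2 : ∑ i, (v i).im ^ 2 = ∑ i, m i ^ 2 := by rw [hm]
  rw [e1, e2]
  linarith

/-- the asymptotics -/
theorem blk_asy (hF : Fr α) {ρ κ K C0 : ℝ} (hρ : 0 < ρ)
    (hC : 1 ≤ C0) (hb : ∀ i, ctr α i ≠ 0 → Brk (ctr α i) ρ κ K C0) (N : ℕ) (hN : 1 ≤ N)
    (v : Fin 4 → ℂ) (hv : v ∈ Metric.ball (vC α) (ρ / 4)) (ζ : ℂ)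
    (hζ : ‖ζ‖ < ρ / 4) :
    ‖PB N α v ζ * (((√N : ℝ) : ℂ) ^ na α * PA α v) * Complex.exp (-(N * PE α v ζ)) - 1‖ ≤
      6 * C0 * Real.exp (6 * C0) / N := by
  have hv' : ‖v - vC α‖ < ρ / 4 := mem_ball_iff_norm.1 hv
  obtain ⟨G, hG⟩ : ∃ G : Fin 6 → ℂ, G = fun i => if ctr α i = 0 then 1 else
    TB N (nz ζ i) (lf v i) * ((√N : ℝ) * Complex.exp (bb (lf v i) / 2)) *
      Complex.exp (-(N * LT (nz ζ i) (lf v i))) := ⟨_, rfl⟩
  have hprod : PB N α v ζ * (((√N : ℝ) : ℂ) ^ na α * PA α v) * Complex.exp (-(N * PE α v ζ)) =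
      ∏ i, G i := by
    unfold PB PA PE na
    rw [← Finset.prod_pow_eq_pow_sum, Finset.mul_sum, ← Finset.sum_neg_distrib, Complex.exp_sum,
      ← Finset.prod_mul_distrib, ← Finset.prod_mul_distrib, ← Finset.prod_mul_distrib, hG]
    refine Finset.prod_congr rfl fun i _ => ?_
    by_cases h : ctr α i = 0
    · simp only [if_pos h]
      simp
    · simp only [if_neg h, pow_one]
  have hN0 : (0 : ℝ) < N := by exact_mod_cast hN
  have hG1 : ∀ i, ‖G i - 1‖ ≤ C0 / N := by
    intro i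
    rw [hG]
    dsimp only
    by_cases h : ctr α i = 0
    · rw [if_pos h, sub_self, norm_zero]
      positivity
    · rw [if_neg h]
      exact (hb i h).asy N hN (nz ζ i) (lf v i) (by rw [nz_near]; linarith)
        ((lf_near hF v i).trans_lt (by linarith))
  rw [hprod]
  have h1 : ∏ i, G i = ∏ i, (1 + (G i - 1)) := by
    refine Finset.prod_congr rfl fun i _ => ?_
    ring
  rw [h1]
  have h2 := Finset.norm_prod_one_add_sub_one_le Finset.univ (fun i => G i - 1)
  refine h2.trans ?_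
  have h3 : ∑ i, ‖G i - 1‖ ≤ 6 * C0 / N := by
    refine (Finset.sum_le_sum fun i _ => hG1 i).trans (le_of_eq ?_)
    rw [Finset.sum_const, Finset.card_univ, Fintype.card_fin]
    simp
    ring
  have h4 : Real.exp (∑ i, ‖G i - 1‖) - 1 ≤ Real.exp (6 * C0 / N) - 1 := by
    have := Real.exp_le_exp.2 h3
    linarith
  refine h4.trans ?_
  obtain ⟨y, hy⟩ : ∃ y : ℝ, y = 6 * C0 / N := ⟨_, rfl⟩
  have hy0 : 0 ≤ y := by rw [hy]; positivity
  have hy1 : y ≤ 6 * C0 := by
    rw [hy]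
    refine div_le_self (by positivity) ?_
    exact_mod_cast hN
  rw [← hy]
  have h5 : Real.exp y - 1 ≤ y * Real.exp y := by
    have := Real.add_one_le_exp (-y)
    have h6 : Real.exp y * (-y + 1) ≤ Real.exp y * Real.exp (-y) :=
      mul_le_mul_of_nonneg_left this (Real.exp_pos _).le
    rw [← Real.exp_add, add_neg_cancel, Real.exp_zero] at h6
    linarith
  have h6 : y * Real.exp y ≤ y * Real.exp (6 * C0) :=
    mul_le_mul_of_nonneg_left (Real.exp_le_exp.2 hy1) hy0
  refine h5.trans (h6.trans (le_of_eq ?_))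
  rw [hy]
  ring

/-- differentiability -/
theorem blk_diff (hF : Fr α) {ρ κ K C0 : ℝ} (hρ : 0 < ρ)
    (hb : ∀ i, ctr α i ≠ 0 → Brk (ctr α i) ρ κ K C0) (N : ℕ) (hN : 1 ≤ N) :
    DifferentiableOn ℂ (fun p : (Fin 4 → ℂ) × ℂ => PB N α p.1 p.2)
      (Metric.ball (vC α) (ρ / 4) ×ˢ Metric.ball 0 (ρ / 4)) := by
  have hi : ∀ i : Fin 6, DifferentiableOn ℂ (fun p : (Fin 4 → ℂ) × ℂ =>
      if ctr α i = 0 then 1 else TB N (nz p.2 i) (lf p.1 i))
      (Metric.ball (vC α) (ρ / 4) ×ˢ Metric.ball 0 (ρ / 4)) := by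
    intro i
    by_cases h : ctr α i = 0
    · simp only [if_pos h]
      exact differentiableOn_const _
    · simp only [if_neg h]
      have hlf : Differentiable ℂ fun p : (Fin 4 → ℂ) × ℂ => lf p.1 i := by
        have hp : ∀ k : Fin 4, Differentiable ℂ fun p : (Fin 4 → ℂ) × ℂ => p.1 k := fun k =>
          differentiable_pi.1 differentiable_fst k
        fin_cases i
        · exact hp 0
        · exact hp 3
        · exact (hp 0).add (hp 3)
        · exact hp 2
        · exact (hp 1).sub (hp 3)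
        · exact (hp 2).add ((hp 1).sub (hp 3))
      have hnz : Differentiable ℂ fun p : (Fin 4 → ℂ) × ℂ => nz p.2 i := by
        unfold nz
        fun_prop
      have hd := (hb i h).diff N hN
      have hm : Set.MapsTo (fun p : (Fin 4 → ℂ) × ℂ => (nz p.2 i, lf p.1 i))
          (Metric.ball (vC α) (ρ / 4) ×ˢ Metric.ball 0 (ρ / 4))
          (Metric.ball (1 / 2) ρ ×ˢ Metric.ball (ctr α i : ℂ) ρ) := by
        rintro ⟨v, ζ⟩ ⟨h1, h2⟩
        have h1' := mem_ball_iff_norm.1 h1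
        have h2' : ‖ζ‖ < ρ / 4 := by simpa using h2
        constructor
        · rw [mem_ball_iff_norm]
          show ‖nz ζ i - 1 / 2‖ < ρ
          rw [nz_near]
          linarith
        · rw [mem_ball_iff_norm]
          exact (lf_near hF v i).trans_lt (by linarith)
      exact DifferentiableOn.comp (g := fun p : ℂ × ℂ => TB N p.1 p.2)
        (f := fun p : (Fin 4 → ℂ) × ℂ => (nz p.2 i, lf p.1 i)) hd
        (hnz.prodMk hlf).differentiableOn hm
  unfold PB
  simp only [Fin.prod_univ_six]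
  exact (((((hi 0).mul (hi 1)).mul (hi 2)).mul (hi 3)).mul (hi 4)).mul (hi 5)

/-- JOB BLK. -/
theorem task_BLK : S_BLK := by
  intro hLC hLTd hB α hF
  obtain ⟨ρ, κ, K, C0, hρ, hρ1, hκ, hκK, hC, hb⟩ := exists_unif hF hB
  have hK : 0 < K := by linarith
  have hsml : ∀ i, ctr α i ≠ 0 → 32 * (ρ / 4) ≤ ctr α i ∧ 32 * (ρ / 4) ≤ 1 / 2 - ctr α i := by
    intro i hi
    have h1 := (hb i hi).ρ1
    have h2 := (hb i hi).ρ2
    exact ⟨by linarith, by linarith⟩
  obtain ⟨B, hBd⟩ := ((isCompact_Icc (a := 28 * (ρ / 4)) (b := 1 - 28 * (ρ / 4))).reProdIm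
    (isCompact_Icc (a := (-1 : ℝ)) (b := 1))).exists_bound_of_continuousOn
    (ct_cont.mono (Kc_St (by linarith : 0 < ρ / 4)))
  obtain ⟨C1, hC1⟩ : ∃ C1 : ℝ, C1 = C0 ^ 6 + 6 * C0 * Real.exp (6 * C0) + 108 * |B| := ⟨_, rfl⟩
  have hC6 : 1 ≤ C0 ^ 6 := one_le_pow₀ hC
  have hE0 := Real.exp_pos (6 * C0)
  have hE1 : 0 ≤ 6 * C0 * Real.exp (6 * C0) := by positivity
  have hB0 := abs_nonneg B
  refine ⟨ρ / 4, κ / 4, 8 * K, C1, ?_⟩
  exact
  { r0 := by linarith
    r1 := by linarith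
    κ0 := by linarith
    κK := by linarith
    C1 := by rw [hC1]; linarith
    sml := hsml
    diff := fun N hN => blk_diff hF hρ hb N hN
    int := fun N A b C j hN hj hc a1 a2 a3 a4 ζ hζ =>
      blk_int hF hρ hb N A b C j hN hj hc a1 a2 a3 a4 ζ hζ
    maj := fun N hN v hv ha ζ hζ => by
      refine (blk_maj hLC hF hρ hκ hK hC hb N hN v hv ha ζ hζ).trans ?_
      refine mul_le_mul_of_nonneg_right ?_ (Real.exp_pos _).le
      rw [hC1]
      linarith
    asy := fun N hN v hv ha ζ hζ => by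
      refine (blk_asy hF hρ hC hb N hN v hv ζ hζ).trans ?_
      refine div_le_div_of_nonneg_right ?_ (Nat.cast_nonneg N)
      rw [hC1]
      linarith
    hes := fun v hv ζ hζ u b ha => by
      have hv' := mem_ball_iff_norm.1 hv
      unfold PH
      rw [Complex.re_sum]
      have h1 : ∀ i, (if ctr α i = 0 then (0 : ℂ) else hT (nz ζ i) (lf v i) (s6 i * b / 2)
          (lf (fun j => (u j : ℂ)) i) (s6 i * b / 2) (lf (fun j => (u j : ℂ)) i)).re ≤
          -(2 * κ) * (if ctr α i = 0 then 0 else ((lr u i) ^ 2 + (sr i * b / 2) ^ 2)) := by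
        intro i
        by_cases h : ctr α i = 0
        · rw [if_pos h, if_pos h]
          simp
        · rw [if_neg h, if_neg h]
          have h2 := (hb i h).hes (nz ζ i) (lf v i) (by rw [nz_near]; linarith)
            ((lf_near hF v i).trans_lt (by linarith)) (sr i * b / 2) (lr u i)
          rw [lf_real, s6_eq]
          push_cast at h2 ⊢
          refine h2.trans (le_of_eq ?_)
          ring
      refine (Finset.sum_le_sum fun i _ => h1 i).trans ?_
      rw [← Finset.mul_sum]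
      obtain ⟨ad0, ad1, ad3⟩ := ha
      have q1 := quad hF u b (fun h => Complex.ofReal_eq_zero.1 (ad0 h))
        (fun h => ⟨Complex.ofReal_eq_zero.1 (ad1 h).1, Complex.ofReal_eq_zero.1 (ad1 h).2⟩)
        (fun h => Complex.ofReal_eq_zero.1 (ad3 h))
      have q3 := mul_le_mul_of_nonneg_left q1 (by linarith : 0 ≤ 2 * κ)
      linarith
    der := fun v hv ζ hζ u u' b b' => by
      have hSt : ∀ i, ctr α i ≠ 0 → nz ζ i ∈ St ∧ lf v i ∈ St ∧ nz ζ i - lf v i ∈ St := by
        intro i hi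
        obtain ⟨m1, m2, m3⟩ := mem3 hF (hsml i hi).1 (hsml i hi).2 hv hζ
        have hs := Kc_St (by linarith : 0 < ρ / 4)
        exact ⟨hs m1, hs m2, hs m3⟩
      constructor
      · unfold PE PG
        refine HasDerivAt.fun_sum fun i _ => ?_
        by_cases h : ctr α i = 0
        · simp only [if_pos h]
          exact hasDerivAt_const _ _
        · simp only [if_neg h]
          obtain ⟨m1, m2, m3⟩ := hSt i h
          have := (der_one hLTd hLC m1 m2 m3 (s6 i * b / 2) (lf u i) 0 0).1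
          simp only [nz_lin, lf_lin]
          exact this
      · unfold PG PH
        refine HasDerivAt.fun_sum fun i _ => ?_
        by_cases h : ctr α i = 0
        · simp only [if_pos h]
          exact hasDerivAt_const _ _
        · simp only [if_neg h]
          obtain ⟨m1, m2, m3⟩ := hSt i h
          have := (der_one hLTd hLC m1 m2 m3 (s6 i * b / 2) (lf u i) (s6 i * b' / 2) (lf u' i)).2
          simp only [nz_lin, lf_lin]
          exact this
    bdd := fun v hv ζ hζ u u' b b' => by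
      have h1 : ∀ i, ‖(if ctr α i = 0 then (0 : ℂ) else hT (nz ζ i) (lf v i) (s6 i * b / 2)
          (lf u i) (s6 i * b' / 2) (lf u' i))‖ ≤
          18 * |B| * ((‖u‖ + ‖b‖) * (‖u'‖ + ‖b'‖)) := by
        intro i
        by_cases h : ctr α i = 0
        · rw [if_pos h, norm_zero]
          positivity
        · rw [if_neg h]
          obtain ⟨m1, m2, m3⟩ := mem3 hF (hsml i h).1 (hsml i h).2 hv hζ
          have hle := le_abs_self B
          have h2 := hT_bd (a := s6 i * b / 2) (b := lf u i) (a' := s6 i * b' / 2) (b' := lf u' i)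
            ((hBd _ m1).trans hle) ((hBd _ m2).trans hle) ((hBd _ m3).trans hle)
          refine h2.trans ?_
          have l1 := lf_norm u i
          have l2 := lf_norm u' i
          have e1 : ‖s6 i * b / 2‖ = ‖b‖ / 2 := by
            rw [norm_div, norm_mul, s6_norm, one_mul, Complex.norm_ofNat]
          have e2 : ‖s6 i * b' / 2‖ = ‖b'‖ / 2 := by
            rw [norm_div, norm_mul, s6_norm, one_mul, Complex.norm_ofNat]
          have n1 := norm_nonneg b
          have n2 := norm_nonneg b'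
          have n3 := norm_nonneg u
          have n4 := norm_nonneg u'
          have k1 : ‖s6 i * b / 2‖ + ‖lf u i‖ ≤ 3 * (‖u‖ + ‖b‖) := by rw [e1]; linarith
          have k2 : ‖s6 i * b' / 2‖ + ‖lf u' i‖ ≤ 3 * (‖u'‖ + ‖b'‖) := by rw [e2]; linarith
          have k3 := mul_le_mul k1 k2 (by positivity) (by positivity)
          have k4 := mul_le_mul_of_nonneg_left k3 (by positivity : 0 ≤ 2 * |B|)
          refine k4.trans (le_of_eq ?_)
          ring
      unfold PH
      refine (norm_sum_le _ _).trans ((Finset.sum_le_sum fun i _ => h1 i).trans ?_)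
      rw [Finset.sum_const, Finset.card_univ, Fintype.card_fin, nsmul_eq_mul]
      have k5 : 108 * |B| * ((‖u‖ + ‖b‖) * (‖u'‖ + ‖b'‖)) ≤ C1 * ((‖u‖ + ‖b‖) * (‖u'‖ + ‖b'‖)) := by
        refine mul_le_mul_of_nonneg_right ?_ (by positivity)
        rw [hC1]
        linarith
      push_cast
      linarith
    cen := fun u b ha => by
      obtain ⟨ad0, ad1, ad3⟩ := ha
      rw [← lin1 hF u ad0 ad1 ad3]
      unfold PG
      have h1 : ∀ i, (if ctr α i = 0 then (0 : ℂ) else gT (nz 0 i) (lf (vC α) i) (s6 i * b / 2)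
          (lf u i)) = -(((cc α i * sr i : ℝ) : ℂ) * (b / 2)) - (cl α i : ℂ) * lf u i := by
        intro i
        by_cases h : ctr α i = 0
        · rw [if_pos h, cl_zero h, cc_zero h]
          simp
        · rw [if_neg h, lf_vC hF i]
          have e : nz 0 i = 1 / 2 := by
            unfold nz
            rw [mul_zero, zero_div, add_zero]
          rw [e, gT_real (lt_of_le_of_ne (ctr_nn hF i) (Ne.symm h)) (ctr_lt hF i), s6_eq]
          unfold cl cc
          push_cast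
          ring
      rw [Finset.sum_congr rfl fun i _ => h1 i, Finset.sum_sub_distrib, Finset.sum_neg_distrib,
        ← Finset.sum_mul, ← Complex.ofReal_sum, lin2 hF]
      simp
    val := by
      rw [← sum_hh hLC]
      unfold PE
      rw [Complex.ofReal_sum]
      refine Finset.sum_congr rfl fun i _ => ?_
      by_cases h : ctr α i = 0
      · rw [if_pos h, if_pos h]
        simp
      · rw [if_neg h, if_neg h, lf_vC hF i]
        have e : nz 0 i = 1 / 2 := by
          unfold nz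
          rw [mul_zero, zero_div, add_zero]
        rw [e, LT_real hLC (lt_of_le_of_ne (ctr_nn hF i) (Ne.symm h)) (ctr_lt hF i)] }

end

end Pool.Agent.Q176.HT
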