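import Pool.Agent.Q99.HT.Stm2

/-! # Project HT of helper99: monotonicity (job BMO) and the linear algebra of a region -/

set_option autoImplicit false

namespace Pool.Agent.Q176.HT

open Finset Filter Topology
open Pool.Agent.W719.BS (D LL)
open Pool.Agent.Q99.FAL (bq hh)
open Pool.Agent.Q99.KN (sn bc LC bb Gm St ct S_LC)
open Pool.Agent.Q99.HT

/-! ### monotonicity -/

theorem brk_mono {x ρ κ K C0 ρ' κ' K' C0' : ℝ} (h : Brk x ρ κ K C0) (h1 : 0 < ρ') (h2 : ρ' ≤ ρ)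
    (h3 : 0 < κ') (h4 : κ' ≤ κ) (h5 : K ≤ K') (h6 : C0 ≤ C0') : Brk x ρ' κ' K' C0' where
  ρ0 := h1
  ρ1 := by linarith [h.ρ1]
  ρ2 := by linarith [h.ρ2]
  κ0 := h3
  κK := by linarith [h.κK]
  C1 := by linarith [h.C1]
  diff N hN := (h.diff N hN).mono
    (Set.prod_mono (Metric.ball_subset_ball h2) (Metric.ball_subset_ball h2))
  int N k hN ζ hk hζ := h.int N k hN ζ (by linarith) (by linarith)
  maj N hN ν ξ hν hξ := by
    refine (h.maj N hN ν ξ (by linarith) (by linarith)).trans ?_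
    have hC := h.C1
    refine mul_le_mul h6 (Real.exp_le_exp.2 ?_) (Real.exp_pos _).le (by linarith)
    refine mul_le_mul_of_nonneg_left ?_ (Nat.cast_nonneg N)
    have e1 : κ' * ((ξ.re - x) ^ 2 + (ν.re - 1 / 2) ^ 2) ≤
        κ * ((ξ.re - x) ^ 2 + (ν.re - 1 / 2) ^ 2) := mul_le_mul_of_nonneg_right h4 (by positivity)
    have e2 : K * (ξ.im ^ 2 + ν.im ^ 2) ≤ K' * (ξ.im ^ 2 + ν.im ^ 2) :=
      mul_le_mul_of_nonneg_right h5 (by positivity)
    linarith
  asy N hN ν ξ hν hξ := (h.asy N hN ν ξ (by linarith) (by linarith)).trans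
    (div_le_div_of_nonneg_right h6 (Nat.cast_nonneg N))
  hes ν ξ hν hξ a b := by
    refine (h.hes ν ξ (by linarith) (by linarith) a b).trans ?_
    have e1 : κ' * (a ^ 2 + b ^ 2) ≤ κ * (a ^ 2 + b ^ 2) :=
      mul_le_mul_of_nonneg_right h4 (by positivity)
    linarith

/-- JOB BMO. -/
theorem task_BMO : S_BMO := by
  intro α r κ K C0 r' κ' K' C0' h h1 h2 h3 h4 h5 h6
  have hb := Metric.ball_subset_ball (x := vC α) h2
  have hb0 := Metric.ball_subset_ball (x := (0 : ℂ)) h2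
  exact
  { r0 := h1
    r1 := by linarith [h.r1]
    κ0 := h3
    κK := by linarith [h.κK]
    C1 := by linarith [h.C1]
    sml := fun i hi => ⟨by linarith [(h.sml i hi).1], by linarith [(h.sml i hi).2]⟩
    diff := fun N hN => (h.diff N hN).mono (Set.prod_mono hb hb0)
    int := fun N A b C j hN hj hc a1 a2 a3 a4 ζ hζ =>
      h.int N A b C j hN hj hc (by linarith) (by linarith) (by linarith) (by linarith) ζ
        (by linarith)
    maj := fun N hN v hv ha ζ hζ => by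
      refine (h.maj N hN v (hb hv) ha ζ (by linarith)).trans ?_
      have hC := h.C1
      refine mul_le_mul h6 (Real.exp_le_exp.2 ?_) (Real.exp_pos _).le (by linarith)
      refine mul_le_mul_of_nonneg_left ?_ (Nat.cast_nonneg N)
      have e1 : κ' * (∑ i, ((v i).re - (vC α i).re) ^ 2 + ζ.re ^ 2) ≤
          κ * (∑ i, ((v i).re - (vC α i).re) ^ 2 + ζ.re ^ 2) :=
        mul_le_mul_of_nonneg_right h4 (by positivity)
      have e2 : K * (∑ i, (v i).im ^ 2 + ζ.im ^ 2) ≤ K' * (∑ i, (v i).im ^ 2 + ζ.im ^ 2) :=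
        mul_le_mul_of_nonneg_right h5 (by positivity)
      linarith
    asy := fun N hN v hv ha ζ hζ => (h.asy N hN v (hb hv) ha ζ (by linarith)).trans
      (div_le_div_of_nonneg_right h6 (Nat.cast_nonneg N))
    hes := fun v hv ζ hζ u b ha => by
      refine (h.hes v (hb hv) ζ (by linarith) u b ha).trans ?_
      have e1 : κ' * (∑ i, u i ^ 2 + b ^ 2) ≤ κ * (∑ i, u i ^ 2 + b ^ 2) :=
        mul_le_mul_of_nonneg_right h4 (by positivity)
      linarith
    der := fun v hv ζ hζ => h.der v (hb hv) ζ (by linarith)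
    bdd := fun v hv ζ hζ u u' b b' => by
      refine (h.bdd v (hb hv) ζ (by linarith) u u' b b').trans ?_
      exact mul_le_mul_of_nonneg_right (mul_le_mul_of_nonneg_right h6 (by positivity))
        (by positivity)
    cen := h.cen
    val := h.val }

/-! ### linear forms -/

/-- the real linear forms -/
def lr (d : Fin 4 → ℝ) : Fin 6 → ℝ := ![d 0, d 3, d 0 + d 3, d 2, d 1 - d 3, d 2 + (d 1 - d 3)]

/-- the real signs -/
def sr : Fin 6 → ℝ := ![-1, 1, 1, 1, -1, -1]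

theorem s6_eq (i : Fin 6) : s6 i = ((sr i : ℝ) : ℂ) := by
  fin_cases i <;> simp [s6, sr]

theorem sr_sq (i : Fin 6) : sr i ^ 2 = 1 := by
  fin_cases i <;> simp [sr]

theorem s6_norm (i : Fin 6) : ‖s6 i‖ = 1 := by
  fin_cases i <;> simp [s6]

theorem lf_lin (v u : Fin 4 → ℂ) (t : ℂ) (i : Fin 6) : lf (v + t • u) i = lf v i + t * lf u i := by
  fin_cases i <;> simp [lf] <;> ring

theorem lf_sub (v u : Fin 4 → ℂ) (i : Fin 6) : lf v i - lf u i = lf (v - u) i := by
  fin_cases i <;> simp [lf] <;> ring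

theorem lf_real (d : Fin 4 → ℝ) (i : Fin 6) : lf (fun j => (d j : ℂ)) i = ((lr d i : ℝ) : ℂ) := by
  fin_cases i <;> simp [lf, lr]

theorem lf_re (v : Fin 4 → ℂ) (i : Fin 6) : (lf v i).re = lr (fun j => (v j).re) i := by
  fin_cases i <;> simp [lf, lr]

theorem lf_im (v : Fin 4 → ℂ) (i : Fin 6) : (lf v i).im = lr (fun j => (v j).im) i := by
  fin_cases i <;> simp [lf, lr]

theorem lf_norm (v : Fin 4 → ℂ) (i : Fin 6) : ‖lf v i‖ ≤ 3 * ‖v‖ := by
  have h0 := norm_le_pi_norm v 0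
  have h1 := norm_le_pi_norm v 1
  have h2 := norm_le_pi_norm v 2
  have h3 := norm_le_pi_norm v 3
  have hv := norm_nonneg v
  have h13 : ‖v 1 - v 3‖ ≤ ‖v 1‖ + ‖v 3‖ := norm_sub_le _ _
  fin_cases i
  · show ‖v 0‖ ≤ _
    linarith
  · show ‖v 3‖ ≤ _
    linarith
  · show ‖v 0 + v 3‖ ≤ _
    have := norm_add_le (v 0) (v 3)
    linarith
  · show ‖v 2‖ ≤ _
    linarith
  · show ‖v 1 - v 3‖ ≤ _
    linarith
  · show ‖v 2 + (v 1 - v 3)‖ ≤ _
    have := norm_add_le (v 2) (v 1 - v 3)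
    linarith

section
variable {α : Fin 6 → ℝ}

theorem ctr2 (hF : Fr α) : ctr α 2 = α 0 + α 1 := by
  show 1 / 2 - α 2 = _
  linarith [hF.s1]

theorem ctr5 (hF : Fr α) : ctr α 5 = α 3 + α 4 := by
  show 1 / 2 - α 5 = _
  linarith [hF.s2]

theorem lf_vC (hF : Fr α) (i : Fin 6) : lf (vC α) i = (ctr α i : ℂ) := by
  have h2 := ctr2 hF
  have h5 := ctr5 hF
  fin_cases i
  · rfl
  · rfl
  · show (α 0 : ℂ) + (α 1 : ℂ) = ((ctr α 2 : ℝ) : ℂ)
    rw [h2]
    push_cast
    ring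
  · rfl
  · show (α 1 : ℂ) + (α 4 : ℂ) - (α 1 : ℂ) = (α 4 : ℂ)
    ring
  · show (α 3 : ℂ) + ((α 1 : ℂ) + (α 4 : ℂ) - (α 1 : ℂ)) = ((ctr α 5 : ℝ) : ℂ)
    rw [h5]
    push_cast
    ring

theorem ctr_nn (hF : Fr α) (i : Fin 6) : 0 ≤ ctr α i := by
  have h2 := ctr2 hF
  have h5 := ctr5 hF
  have h := hF.nn
  fin_cases i
  · exact h 0
  · exact h 1
  · show 0 ≤ ctr α 2
    rw [h2]
    linarith [h 0, h 1]
  · exact h 3
  · exact h 4
  · show 0 ≤ ctr α 5
    rw [h5]
    linarith [h 3, h 4]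

theorem ctr_lt (hF : Fr α) (i : Fin 6) : ctr α i < 1 / 2 := by
  have h := hF.nn
  have s1 := hF.s1
  have s2 := hF.s2
  have p2 := hF.p2
  have p5 := hF.p5
  have h0 := h 0
  have h1 := h 1
  have h3 := h 3
  have h4 := h 4
  fin_cases i
  · show α 0 < 1 / 2
    linarith
  · show α 1 < 1 / 2
    linarith
  · show 1 / 2 - α 2 < 1 / 2
    linarith
  · show α 3 < 1 / 2
    linarith
  · show α 4 < 1 / 2
    linarith
  · show 1 / 2 - α 5 < 1 / 2
    linarith

/-- the quadratic form controls admissible vectors -/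
theorem quad (hF : Fr α) (d : Fin 4 → ℝ) (β : ℝ) (h0 : α 0 = 0 → d 0 = 0)
    (h1 : α 1 = 0 → d 1 = 0 ∧ d 3 = 0) (h3 : α 3 = 0 → d 2 = 0) :
    1 / 4 * (∑ i, d i ^ 2 + β ^ 2) ≤
      ∑ i, if ctr α i = 0 then 0 else ((lr d i) ^ 2 + (sr i * β / 2) ^ 2) := by
  obtain ⟨t, ht⟩ : ∃ t : Fin 6 → ℝ, t = fun i => if ctr α i = 0 then 0 else
    ((lr d i) ^ 2 + (sr i * β / 2) ^ 2) := ⟨_, rfl⟩
  have hnn : ∀ i, 0 ≤ t i := by
    intro i
    rw [ht]
    dsimp only
    split_ifs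
    · exact le_refl _
    · positivity
  have hval : ∀ i, ctr α i ≠ 0 → t i = (lr d i) ^ 2 + β ^ 2 / 4 := by
    intro i hi
    rw [ht]
    dsimp only
    rw [if_neg hi, div_pow, mul_pow, sr_sq]
    ring
  have e : (∑ i, if ctr α i = 0 then 0 else ((lr d i) ^ 2 + (sr i * β / 2) ^ 2)) = ∑ i, t i := by
    rw [ht]
  rw [e, Fin.sum_univ_four, Fin.sum_univ_six]
  have n0 := hnn 0
  have n1 := hnn 1
  have n2 := hnn 2
  have n3 := hnn 3
  have n4 := hnn 4
  have n5 := hnn 5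
  have v0 : α 0 ≠ 0 → t 0 = d 0 ^ 2 + β ^ 2 / 4 := hval 0
  have v1 : α 1 ≠ 0 → t 1 = d 3 ^ 2 + β ^ 2 / 4 := hval 1
  have v4 : α 1 ≠ 0 → t 4 = (d 1 - d 3) ^ 2 + β ^ 2 / 4 := fun h =>
    hval 4 (fun h' => h (hF.z14.2 h'))
  have v3 : α 3 ≠ 0 → t 3 = d 2 ^ 2 + β ^ 2 / 4 := hval 3
  have hb := sq_nonneg β
  have e0 := sq_nonneg (d 0)
  have e2 := sq_nonneg (d 2)
  have e3 := sq_nonneg (d 3)
  have e13 := sq_nonneg (d 1 - d 3)
  have e1 : d 1 ^ 2 ≤ 2 * (d 1 - d 3) ^ 2 + 2 * d 3 ^ 2 := by nlinarith [sq_nonneg (d 1 - 2 * d 3)]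
  by_cases c0 : α 0 = 0
  · have d0 := h0 c0
    by_cases c1 : α 1 = 0
    · obtain ⟨d1, d3⟩ := h1 c1
      have c3 : α 3 ≠ 0 := fun h => hF.nd ⟨c0, c1, h⟩
      have w3 := v3 c3
      rw [d0, d1, d3]
      nlinarith
    · have w1 := v1 c1
      have w4 := v4 c1
      by_cases c3 : α 3 = 0
      · have d2 := h3 c3
        rw [d0, d2]
        nlinarith
      · have w3 := v3 c3
        rw [d0]
        nlinarith
  · have w0 := v0 c0
    by_cases c1 : α 1 = 0
    · obtain ⟨d1, d3⟩ := h1 c1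
      by_cases c3 : α 3 = 0
      · have d2 := h3 c3
        rw [d1, d2, d3]
        nlinarith
      · have w3 := v3 c3
        rw [d1, d3]
        nlinarith
    · have w1 := v1 c1
      have w4 := v4 c1
      by_cases c3 : α 3 = 0
      · have d2 := h3 c3
        rw [d2]
        nlinarith
      · have w3 := v3 c3
        nlinarith

/-- the quadratic form is bounded -/
theorem quad_up (d : Fin 4 → ℝ) (β : ℝ) :
    (∑ i, if ctr α i = 0 then 0 else ((lr d i) ^ 2 + (sr i * β / 2) ^ 2)) ≤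
      8 * (∑ i, d i ^ 2 + β ^ 2) := by
  have h : ∀ i, (if ctr α i = 0 then 0 else ((lr d i) ^ 2 + (sr i * β / 2) ^ 2)) ≤
      (lr d i) ^ 2 + β ^ 2 / 4 := by
    intro i
    split_ifs
    · positivity
    · rw [div_pow, mul_pow, sr_sq]
      linarith
  refine (Finset.sum_le_sum fun i _ => h i).trans ?_
  rw [Fin.sum_univ_four, Fin.sum_univ_six]
  show (d 0 ^ 2 + β ^ 2 / 4) + (d 3 ^ 2 + β ^ 2 / 4) + ((d 0 + d 3) ^ 2 + β ^ 2 / 4) +
    (d 2 ^ 2 + β ^ 2 / 4) + ((d 1 - d 3) ^ 2 + β ^ 2 / 4) + ((d 2 + (d 1 - d 3)) ^ 2 + β ^ 2 / 4) ≤ _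
  nlinarith [sq_nonneg (d 0 - d 3), sq_nonneg (d 1 + d 3), sq_nonneg (d 2 - d 1),
    sq_nonneg (d 2 + d 3), sq_nonneg β, sq_nonneg (d 0), sq_nonneg (d 1), sq_nonneg (d 2),
    sq_nonneg (d 3)]

/-! ### the trigonometric identities -/

/-- the logarithms of the tangents -/
noncomputable def cl (α : Fin 6 → ℝ) (i : Fin 6) : ℝ := Real.log (Real.tan (Real.pi * ctr α i))

/-- the logarithms of the cosines -/
noncomputable def cc (α : Fin 6 → ℝ) (i : Fin 6) : ℝ := Real.log (Real.cos (Real.pi * ctr α i))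

theorem tan_pos' {x : ℝ} (h1 : 0 < x) (h2 : x < 1 / 2) : 0 < Real.tan (Real.pi * x) := by
  have hp := Real.pi_pos
  exact Real.tan_pos_of_pos_of_lt_pi_div_two (by positivity) (by nlinarith)

theorem cos_pos' {x : ℝ} (h1 : 0 ≤ x) (h2 : x < 1 / 2) : 0 < Real.cos (Real.pi * x) := by
  have hp := Real.pi_pos
  exact Real.cos_pos_of_mem_Ioo ⟨by nlinarith, by nlinarith⟩

theorem sin_pos' {x : ℝ} (h1 : 0 < x) (h2 : x < 1) : 0 < Real.sin (Real.pi * x) := by
  have hp := Real.pi_pos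
  exact Real.sin_pos_of_pos_of_lt_pi (by positivity) (by nlinarith)

theorem half_sub (x : ℝ) : Real.pi * (1 / 2 - x) = Real.pi / 2 - Real.pi * x := by ring

theorem cl2 : cl α 2 = -Real.log (Real.tan (Real.pi * α 2)) := by
  show Real.log (Real.tan (Real.pi * (1 / 2 - α 2))) = _
  rw [half_sub, Real.tan_pi_div_two_sub, Real.log_inv]

theorem cl5 : cl α 5 = -Real.log (Real.tan (Real.pi * α 5)) := by
  show Real.log (Real.tan (Real.pi * (1 / 2 - α 5))) = _
  rw [half_sub, Real.tan_pi_div_two_sub, Real.log_inv]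

/-- the sum of the linear parts -/
theorem lin1 (hF : Fr α) (w : Fin 4 → ℂ) (h0 : α 0 = 0 → w 0 = 0)
    (h1 : α 1 = 0 → w 1 = 0 ∧ w 3 = 0) (h3 : α 3 = 0 → w 2 = 0) :
    -(∑ i, (cl α i : ℂ) * lf w i) =
      (ml α 0 : ℂ) * w 0 + (ml α 1 : ℂ) * w 1 + (ml α 2 : ℂ) * w 2 := by
  rw [Fin.sum_univ_six, cl2, cl5]
  show -((cl α 0 : ℂ) * w 0 + (cl α 1 : ℂ) * w 3 +
    ((-Real.log (Real.tan (Real.pi * α 2)) : ℝ) : ℂ) * (w 0 + w 3) + (cl α 3 : ℂ) * w 2 +
    (cl α 4 : ℂ) * (w 1 - w 3) + ((-Real.log (Real.tan (Real.pi * α 5)) : ℝ) : ℂ) *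
    (w 2 + (w 1 - w 3))) = _
  have hn := hF.nn
  have s1 := hF.s1
  have s2 := hF.s2
  have p2 := hF.p2
  have p5 := hF.p5
  have n0 := hn 0
  have n1 := hn 1
  have n3 := hn 3
  have n4 := hn 4
  -- the coefficient of `w 0`
  have c0 : ((ml α 0 : ℝ) : ℂ) * w 0 =
      (Real.log (Real.tan (Real.pi * α 2)) - cl α 0 : ℝ) * w 0 := by
    by_cases h : α 0 = 0
    · rw [h0 h, mul_zero, mul_zero]
    · have q0 : 0 < α 0 := lt_of_le_of_ne n0 (Ne.symm h)
      have e : ml α 0 = Real.log (Real.tan (Real.pi * α 2)) - cl α 0 := by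
        show Real.log (Real.tan (Real.pi * α 2) / Real.tan (Real.pi * α 0)) = _
        rw [Real.log_div (tan_pos' p2 (by linarith)).ne' (tan_pos' q0 (by linarith)).ne']
        rfl
      rw [e]
  have c2 : ((ml α 2 : ℝ) : ℂ) * w 2 =
      (Real.log (Real.tan (Real.pi * α 5)) - cl α 3 : ℝ) * w 2 := by
    by_cases h : α 3 = 0
    · rw [h3 h, mul_zero, mul_zero]
    · have q0 : 0 < α 3 := lt_of_le_of_ne n3 (Ne.symm h)
      have e : ml α 2 = Real.log (Real.tan (Real.pi * α 5)) - cl α 3 := by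
        show Real.log (Real.tan (Real.pi * α 5) / Real.tan (Real.pi * α 3)) = _
        rw [Real.log_div (tan_pos' p5 (by linarith)).ne' (tan_pos' q0 (by linarith)).ne']
        rfl
      rw [e]
  by_cases h : α 1 = 0
  · obtain ⟨w1, w3⟩ := h1 h
    rw [c0, c2, w1, w3]
    push_cast
    ring
  · have q1 : 0 < α 1 := lt_of_le_of_ne n1 (Ne.symm h)
    have q4 : 0 < α 4 := lt_of_le_of_ne n4 (fun h' => h (hF.z14.2 h'.symm))
    have t1 := tan_pos' q1 (by linarith)
    have t2 := tan_pos' p2 (by linarith)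
    have t4 := tan_pos' q4 (by linarith)
    have t5 := tan_pos' p5 (by linarith)
    have hcr := congrArg Real.log (hF.cr h)
    rw [Real.log_mul t1.ne' t5.ne', Real.log_mul t2.ne' t4.ne'] at hcr
    have e : ml α 1 = Real.log (Real.tan (Real.pi * α 2)) - cl α 1 := by
      show Real.log (Real.tan (Real.pi * α 2) / Real.tan (Real.pi * α 1)) = _
      rw [Real.log_div t2.ne' t1.ne']
      rfl
    have hcr' : cl α 1 + Real.log (Real.tan (Real.pi * α 5)) =
        Real.log (Real.tan (Real.pi * α 2)) + cl α 4 := hcr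
    have hc : ((cl α 1 : ℝ) : ℂ) = ((Real.log (Real.tan (Real.pi * α 2)) : ℝ) : ℂ) + (cl α 4 : ℝ) -
        ((Real.log (Real.tan (Real.pi * α 5)) : ℝ) : ℂ) := by
      have : cl α 1 = Real.log (Real.tan (Real.pi * α 2)) + cl α 4 -
        Real.log (Real.tan (Real.pi * α 5)) := by linarith
      rw [this]
      push_cast
      ring
    rw [c0, c2, e]
    push_cast
    rw [hc]
    ring

/-- the coefficient of `ζ` vanishes -/
theorem lin2 (hF : Fr α) : ∑ i, cc α i * sr i = 0 := by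
  rw [Fin.sum_univ_six]
  have hn := hF.nn
  have s1 := hF.s1
  have s2 := hF.s2
  have p2 := hF.p2
  have p5 := hF.p5
  have n0 := hn 0
  have n1 := hn 1
  have n3 := hn 3
  have n4 := hn 4
  have hc0 := cos_pos' n0 (by linarith : α 0 < 1 / 2)
  have hc1 := cos_pos' n1 (by linarith : α 1 < 1 / 2)
  have hc3 := cos_pos' n3 (by linarith : α 3 < 1 / 2)
  have hc4 := cos_pos' n4 (by linarith : α 4 < 1 / 2)
  have hs2 := sin_pos' p2 (by linarith : α 2 < 1)
  have hs5 := sin_pos' p5 (by linarith : α 5 < 1)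
  have e2 : cc α 2 = Real.log (Real.sin (Real.pi * α 2)) := by
    show Real.log (Real.cos (Real.pi * (1 / 2 - α 2))) = _
    rw [half_sub, Real.cos_pi_div_two_sub]
  have e5 : cc α 5 = Real.log (Real.sin (Real.pi * α 5)) := by
    show Real.log (Real.cos (Real.pi * (1 / 2 - α 5))) = _
    rw [half_sub, Real.cos_pi_div_two_sub]
  have e0 : Real.cos (Real.pi * α 0) = Real.sin (Real.pi * α 1) * Real.cos (Real.pi * α 2) +
      Real.cos (Real.pi * α 1) * Real.sin (Real.pi * α 2) := by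
    rw [← Real.sin_add, ← Real.cos_pi_div_two_sub]
    congr 1
    have : α 0 = 1 / 2 - α 1 - α 2 := by linarith
    rw [this]
    ring
  have e3 : Real.cos (Real.pi * α 3) = Real.sin (Real.pi * α 4) * Real.cos (Real.pi * α 5) +
      Real.cos (Real.pi * α 4) * Real.sin (Real.pi * α 5) := by
    rw [← Real.sin_add, ← Real.cos_pi_div_two_sub]
    congr 1
    have : α 3 = 1 / 2 - α 4 - α 5 := by linarith
    rw [this]
    ring
  have key : Real.cos (Real.pi * α 1) * Real.sin (Real.pi * α 2) * Real.cos (Real.pi * α 3) =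
      Real.cos (Real.pi * α 0) * Real.cos (Real.pi * α 4) * Real.sin (Real.pi * α 5) := by
    by_cases h : α 1 = 0
    · have h4 := hF.z14.1 h
      rw [e0, e3, h, h4, mul_zero, Real.sin_zero, Real.cos_zero]
      ring
    · have q1 : 0 < α 1 := lt_of_le_of_ne n1 (Ne.symm h)
      have q4 : 0 < α 4 := lt_of_le_of_ne n4 (fun h' => h (hF.z14.2 h'.symm))
      have hc2 := cos_pos' p2.le (by linarith : α 2 < 1 / 2)
      have hc5 := cos_pos' p5.le (by linarith : α 5 < 1 / 2)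
      have hcr := hF.cr h
      rw [Real.tan_eq_sin_div_cos, Real.tan_eq_sin_div_cos, Real.tan_eq_sin_div_cos,
        Real.tan_eq_sin_div_cos, div_mul_div_comm, div_mul_div_comm,
        div_eq_div_iff (by positivity) (by positivity)] at hcr
      rw [e0, e3]
      linear_combination -hcr
  have hlog := congrArg Real.log key
  rw [Real.log_mul (by positivity) hc3.ne', Real.log_mul hc1.ne' hs2.ne',
    Real.log_mul (by positivity) hs5.ne', Real.log_mul hc0.ne' hc4.ne'] at hlog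
  rw [e2, e5]
  show Real.log (Real.cos (Real.pi * α 0)) * (-1) + Real.log (Real.cos (Real.pi * α 1)) * 1 +
    Real.log (Real.sin (Real.pi * α 2)) * 1 + Real.log (Real.cos (Real.pi * α 3)) * 1 +
    Real.log (Real.cos (Real.pi * α 4)) * (-1) + Real.log (Real.sin (Real.pi * α 5)) * (-1) = 0
  linarith

end

end Pool.Agent.Q176.HT
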