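import Pool.Agent.Q176.HT.Lin

/-! # Project HT of helper99, job BLK: the constants of a region exist -/

set_option autoImplicit false

namespace Pool.Agent.Q176.HT

open Finset Filter Topology
open Pool.Agent.W719.BS (D LL)
open Pool.Agent.Q99.FAL (bq hh)
open Pool.Agent.Q99.KN (sn bc LC bb Gm St ct S_LC)
open Pool.Agent.Q99.HT

/-! ### the functions -/

theorem sin_ne {x : ℂ} (hx : x ∈ St) : Complex.sin (Real.pi * x) ≠ 0 := by
  intro h
  rw [Complex.sin_eq_zero_iff] at h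
  obtain ⟨k, hk⟩ := h
  have h1 : x = k := by
    have hp : (Real.pi : ℂ) ≠ 0 := by exact_mod_cast Real.pi_ne_zero
    have : (Real.pi : ℂ) * x = Real.pi * k := by rw [hk]; ring
    exact mul_left_cancel₀ hp this
  have h2 : x.re = k := by rw [h1]; simp
  have h3 : (0:ℝ) < k ∧ (k:ℝ) < 1 := by rw [← h2]; exact hx
  have h4 : 0 < k := by exact_mod_cast h3.1
  have h5 : k < 1 := by exact_mod_cast h3.2
  omega

theorem ct_cont : ContinuousOn ct St := by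
  unfold ct
  refine continuousOn_const.mul (ContinuousOn.div ?_ ?_ fun x hx => sin_ne hx)
  · fun_prop
  · fun_prop

theorem bb_real {x : ℝ} (h1 : 0 < x) (h2 : x < 1) :
    bb x = ((Real.log (2 * Real.sin (Real.pi * x)) : ℝ) : ℂ) := by
  unfold bb
  have hs := sin_pos' h1 h2
  rw [show (2 * Complex.sin (Real.pi * (x:ℂ)) : ℂ) = ((2 * Real.sin (Real.pi * x) : ℝ) : ℂ) by
    push_cast; rfl, Complex.ofReal_log (by positivity)]

theorem gT_real {x : ℝ} (h1 : 0 < x) (h2 : x < 1 / 2) (a b : ℂ) : gT (1 / 2) x a b =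
    -(a * ((Real.log (Real.cos (Real.pi * x)) : ℝ) : ℂ)) -
      b * ((Real.log (Real.tan (Real.pi * x)) : ℝ) : ℂ) := by
  unfold gT
  have hs := sin_pos' h1 (by linarith)
  have hc := cos_pos' h1.le h2
  have e1 : bb (1 / 2) = ((Real.log 2 : ℝ) : ℂ) := by
    have := bb_real (x := 1 / 2) (by norm_num) (by norm_num)
    rw [show Real.pi * (1 / 2) = Real.pi / 2 by ring, Real.sin_pi_div_two, mul_one] at this
    rw [← this]
    push_cast
    rfl
  have e2 : bb (1 / 2 - (x : ℂ)) = ((Real.log 2 + Real.log (Real.cos (Real.pi * x)) : ℝ) : ℂ) := by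
    have := bb_real (x := 1 / 2 - x) (by linarith) (by linarith)
    rw [half_sub, Real.sin_pi_div_two_sub, Real.log_mul (by norm_num) hc.ne'] at this
    rw [← this]
    push_cast
    rfl
  have e3 : bb (x : ℂ) = ((Real.log 2 + Real.log (Real.sin (Real.pi * x)) : ℝ) : ℂ) := by
    rw [bb_real h1 (by linarith), Real.log_mul (by norm_num) hs.ne']
  have e4 : Real.log (Real.tan (Real.pi * x)) = Real.log (Real.sin (Real.pi * x)) -
      Real.log (Real.cos (Real.pi * x)) := by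
    rw [Real.tan_eq_sin_div_cos, Real.log_div hs.ne' hc.ne']
  rw [e1, e2, e3, e4]
  push_cast
  ring

theorem LC_half (hLC : S_LC) : LC (1 / 2) = 0 := by
  have h := hLC.2.1 (1 / 2) (by constructor <;> norm_num)
  have e : (1 - 1 / 2 : ℂ) = 1 / 2 := by norm_num
  rw [e] at h
  have h2 : (2 : ℂ) * LC (1 / 2) = 0 := by linear_combination h
  rcases mul_eq_zero.1 h2 with h3 | h3
  · norm_num at h3
  · exact h3

theorem LT_real (hLC : S_LC) {x : ℝ} (h1 : 0 < x) (h2 : x < 1 / 2) :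
    LT (1 / 2) x = ((hh x : ℝ) : ℂ) := by
  unfold Pool.Agent.Q99.HT.LT hh
  have e1 := hLC.2.2.1 x h1 (by linarith)
  have e2 := hLC.2.2.1 (1 / 2 - x) (by linarith) (by linarith)
  rw [LC_half hLC, e1]
  have e3 : LC (1 / 2 - (x : ℂ)) = ((LL (1 / 2 - x) : ℝ) : ℂ) := by
    rw [← e2]
    push_cast
    rfl
  rw [e3]
  push_cast
  ring

theorem hh_zero (hLC : S_LC) : hh 0 = 0 := by
  unfold hh
  have e1 : LL 0 = 0 := by
    unfold LL
    exact intervalIntegral.integral_same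
  have e2 : LL (1 / 2) = 0 := by
    have h := hLC.2.2.1 (1 / 2) (by norm_num) (by norm_num)
    have e : (((1 / 2 : ℝ)) : ℂ) = 1 / 2 := by push_cast; rfl
    rw [e, LC_half hLC] at h
    exact_mod_cast h.symm
  rw [e1, sub_zero, e2]
  ring

theorem hh_half (x : ℝ) : hh (1 / 2 - x) = hh x := by
  unfold hh
  rw [sub_sub_cancel]
  ring

section
variable {α : Fin 6 → ℝ}

theorem sum_hh (hLC : S_LC) : ∑ i, (if ctr α i = 0 then 0 else hh (ctr α i)) = v0 α := by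
  unfold v0
  refine Finset.sum_congr rfl fun i _ => ?_
  have e : (if ctr α i = 0 then 0 else hh (ctr α i)) = hh (ctr α i) := by
    split_ifs with h
    · rw [h, hh_zero hLC]
    · rfl
  rw [e]
  fin_cases i
  · rfl
  · rfl
  · exact hh_half (α 2)
  · rfl
  · rfl
  · exact hh_half (α 5)

theorem cl_zero {i : Fin 6} (h : ctr α i = 0) : cl α i = 0 := by
  unfold cl
  rw [h, mul_zero, Real.tan_zero, Real.log_zero]

theorem cc_zero {i : Fin 6} (h : ctr α i = 0) : cc α i = 0 := by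
  unfold cc
  rw [h, mul_zero, Real.cos_zero, Real.log_one]

/-- uniform constants -/
theorem exists_unif (hF : Fr α)
    (hB : ∀ x : ℝ, 0 < x → x < 1 / 2 → ∃ ρ κ K C0 : ℝ, Brk x ρ κ K C0) :
    ∃ ρ κ K C0 : ℝ, 0 < ρ ∧ ρ ≤ 1 / 16 ∧ 0 < κ ∧ κ ≤ K ∧ 1 ≤ C0 ∧
      ∀ i, ctr α i ≠ 0 → Brk (ctr α i) ρ κ K C0 := by
  have h : ∀ i : Fin 6, ∀ᶠ t : ℝ in atTop, ctr α i ≠ 0 → Brk (ctr α i) (1 / t) (1 / t) t t := by
    intro i
    by_cases hi : ctr α i = 0
    · exact Eventually.of_forall fun t h => absurd hi h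
    · obtain ⟨ρ, κ, K, C0, hb⟩ :=
        hB (ctr α i) (lt_of_le_of_ne (ctr_nn hF i) (Ne.symm hi)) (ctr_lt hF i)
      filter_upwards [eventually_ge_atTop (1 / ρ), eventually_ge_atTop (1 / κ),
        eventually_ge_atTop K, eventually_ge_atTop C0, eventually_gt_atTop 0] with t h1 h2 h3 h4 h5 _
      exact brk_mono hb (by positivity) ((one_div_le hb.ρ0 h5).1 h1) (by positivity)
        ((one_div_le hb.κ0 h5).1 h2) h3 h4
  obtain ⟨t, ht, ht2⟩ := ((eventually_all.2 h).and (eventually_ge_atTop (16 : ℝ))).exists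
  have ht0 : (0 : ℝ) < t := by linarith
  refine ⟨1 / t, 1 / t, t, t, by positivity, one_div_le_one_div_of_le (by norm_num) ht2,
    by positivity, ?_, by linarith, ht⟩
  rw [div_le_iff₀ ht0]
  nlinarith

/-! ### places of the arguments -/

/-- the compact set of the arguments -/
def Kc (r : ℝ) : Set ℂ := Set.Icc (28 * r) (1 - 28 * r) ×ℂ Set.Icc (-1) 1

theorem Kc_St {r : ℝ} (hr : 0 < r) : Kc r ⊆ St := by
  intro z hz
  rw [Kc, Complex.mem_reProdIm] at hz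
  exact ⟨by linarith [hz.1.1], by linarith [hz.1.2]⟩

theorem mem_Kc {r : ℝ} {z : ℂ} {c e : ℝ} (h : ‖z - c‖ ≤ e) (h1 : 28 * r + e ≤ c)
    (h2 : c + e ≤ 1 - 28 * r) (h3 : e ≤ 1) : z ∈ Kc r := by
  have a1 := abs_le.1 ((Complex.abs_re_le_norm (z - c)).trans h)
  have a2 := abs_le.1 ((Complex.abs_im_le_norm (z - c)).trans h)
  rw [Complex.sub_re, Complex.ofReal_re] at a1
  rw [Complex.sub_im, Complex.ofReal_im, sub_zero] at a2
  rw [Kc, Complex.mem_reProdIm]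
  exact ⟨⟨by linarith [a1.1], by linarith [a1.2]⟩, ⟨by linarith [a2.1], by linarith [a2.2]⟩⟩

theorem nz_near (ζ : ℂ) (i : Fin 6) : ‖nz ζ i - 1 / 2‖ = ‖ζ‖ / 2 := by
  unfold nz
  rw [add_sub_cancel_left, norm_div, norm_mul, s6_norm, one_mul, Complex.norm_ofNat]

theorem lf_near (hF : Fr α) (v : Fin 4 → ℂ) (i : Fin 6) :
    ‖lf v i - (ctr α i : ℂ)‖ ≤ 3 * ‖v - vC α‖ := by
  rw [← lf_vC hF i, lf_sub]
  exact lf_norm _ _

theorem mem3 (hF : Fr α) {r : ℝ} {v : Fin 4 → ℂ} {ζ : ℂ} {i : Fin 6}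
    (h1 : 32 * r ≤ ctr α i) (h2 : 32 * r ≤ 1 / 2 - ctr α i) (hv : v ∈ Metric.ball (vC α) r)
    (hζ : ‖ζ‖ < r) : nz ζ i ∈ Kc r ∧ lf v i ∈ Kc r ∧ nz ζ i - lf v i ∈ Kc r := by
  rw [mem_ball_iff_norm] at hv
  have a1 : ‖nz ζ i - ((1 / 2 : ℝ) : ℂ)‖ ≤ r / 2 := by
    push_cast
    rw [nz_near]
    linarith
  have a2 : ‖lf v i - (ctr α i : ℂ)‖ ≤ 3 * r := (lf_near hF v i).trans (by linarith)
  have a3 : ‖nz ζ i - lf v i - ((1 / 2 - ctr α i : ℝ) : ℂ)‖ ≤ 7 / 2 * r := by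
    have e : nz ζ i - lf v i - ((1 / 2 - ctr α i : ℝ) : ℂ) =
        (nz ζ i - ((1 / 2 : ℝ) : ℂ)) - (lf v i - (ctr α i : ℂ)) := by
      push_cast
      ring
    rw [e]
    exact (norm_sub_le _ _).trans (by linarith)
  have hr : 0 < r := (norm_nonneg ζ).trans_lt hζ
  exact ⟨mem_Kc a1 (by linarith) (by linarith) (by linarith),
    mem_Kc a2 (by linarith) (by linarith) (by linarith),
    mem_Kc a3 (by linarith) (by linarith) (by linarith)⟩

theorem nz_lin (ζ b t : ℂ) (i : Fin 6) : nz (ζ + t * b) i = nz ζ i + t * (s6 i * b / 2) := by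
  unfold nz
  ring

/-- one summand of the potential -/
theorem der_one (hLTd : S_LTd) (hLC : S_LC) {ν ξ : ℂ} (h1 : ν ∈ St) (h2 : ξ ∈ St)
    (h3 : ν - ξ ∈ St) (a b a' b' : ℂ) :
    HasDerivAt (fun t : ℂ => LT (ν + t * a) (ξ + t * b)) (gT ν ξ a b) 0 ∧
    HasDerivAt (fun t : ℂ => gT (ν + t * a) (ξ + t * b) a' b') (hT ν ξ a b a' b') 0 :=
  hLTd hLC ν ξ h1 h2 h3 a b a' b'

theorem hT_bd {ν ξ a b a' b' : ℂ} {B : ℝ} (h1 : ‖ct ν‖ ≤ B) (h2 : ‖ct ξ‖ ≤ B)
    (h3 : ‖ct (ν - ξ)‖ ≤ B) : ‖hT ν ξ a b a' b'‖ ≤ 2 * B * ((‖a‖ + ‖b‖) * (‖a'‖ + ‖b'‖)) := by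
  have hB : 0 ≤ B := (norm_nonneg _).trans h1
  unfold hT
  have e1 : ‖a * a' * (ct ν - ct (ν - ξ))‖ ≤ ‖a‖ * ‖a'‖ * (2 * B) := by
    rw [norm_mul, norm_mul]
    refine mul_le_mul_of_nonneg_left ((norm_sub_le _ _).trans (by linarith)) (by positivity)
  have e2 : ‖(a * b' + a' * b) * ct (ν - ξ)‖ ≤ (‖a‖ * ‖b'‖ + ‖a'‖ * ‖b‖) * B := by
    rw [norm_mul]
    refine mul_le_mul ((norm_add_le _ _).trans ?_) h3 (norm_nonneg _) (by positivity)
    rw [norm_mul, norm_mul]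
  have e3 : ‖b * b' * (ct (ν - ξ) + ct ξ)‖ ≤ ‖b‖ * ‖b'‖ * (2 * B) := by
    rw [norm_mul, norm_mul]
    refine mul_le_mul_of_nonneg_left ((norm_add_le _ _).trans (by linarith)) (by positivity)
  refine (norm_sub_le _ _).trans ?_
  refine (add_le_add ((norm_add_le _ _).trans (add_le_add e1 e2)) e3).trans ?_
  have n1 : 0 ≤ ‖a‖ * ‖b'‖ * B := by positivity
  have n2 : 0 ≤ ‖a'‖ * ‖b‖ * B := by positivity
  nlinarith

end

end Pool.Agent.Q176.HT
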