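import Pool.Agent.Q176.HT.Pre

/-! # Project HT of helper99, job ZZ: the variable `ζ` separates -/

set_option autoImplicit false

namespace Pool.Agent.Q176.HT

open Finset Filter Topology
open Pool.Agent.W719.BS (D LL)
open Pool.Agent.Q99.FAL (bq hh)
open Pool.Agent.Q99.KN (sn bc LC bb Gm St ct S_LC)
open Pool.Agent.Q99.HT

/-! ### part A: exponentials -/

theorem exp_bb' {x : ℂ} (hx : x ∈ St) : Complex.exp (bb x) = 2 * Complex.sin (Real.pi * x) := by
  unfold bb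
  rw [Complex.exp_log (mul_ne_zero two_ne_zero (sin_ne hx))]

theorem sin_half_sub (x : ℂ) : Complex.sin (Real.pi * (1 / 2 - x)) = Complex.cos (Real.pi * x) := by
  rw [show (Real.pi * (1 / 2 - x) : ℂ) = Real.pi / 2 - Real.pi * x by ring,
    Complex.sin_pi_div_two_sub]

theorem exp_L {ξ : ℂ} (h1 : ξ ∈ St) (h2 : 1 / 2 - ξ ∈ St) :
    Complex.exp (bb (1 / 2 - ξ) - bb ξ) * Complex.sin (Real.pi * ξ) =
      Complex.cos (Real.pi * ξ) := by
  rw [Complex.exp_sub, exp_bb' h1, exp_bb' h2, sin_half_sub]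
  have := sin_ne h1
  field_simp

theorem half_St : (1 / 2 : ℂ) ∈ St := by
  constructor <;> norm_num

theorem cos_ne {ξ : ℂ} (h2 : 1 / 2 - ξ ∈ St) : Complex.cos (Real.pi * ξ) ≠ 0 := by
  rw [← sin_half_sub]
  exact sin_ne h2

theorem exp_M {ξ : ℂ} (h2 : 1 / 2 - ξ ∈ St) :
    Complex.exp (bb (1 / 2) - bb (1 / 2 - ξ)) * Complex.cos (Real.pi * ξ) = 1 := by
  have h3 : Complex.sin (Real.pi * (1 / 2)) = 1 := by
    rw [show (Real.pi * (1 / 2) : ℂ) = Real.pi / 2 by ring, Complex.sin_pi_div_two]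
  rw [Complex.exp_sub, exp_bb' half_St, exp_bb' h2, sin_half_sub, h3]
  have := cos_ne h2
  field_simp

theorem exp_M' {ξ : ℂ} (h2 : 1 / 2 - ξ ∈ St) :
    Complex.exp (-(bb (1 / 2) - bb (1 / 2 - ξ))) = Complex.cos (Real.pi * ξ) := by
  have h := exp_M h2
  have h3 : Complex.exp (-(bb (1 / 2) - bb (1 / 2 - ξ))) *
      Complex.exp (bb (1 / 2) - bb (1 / 2 - ξ)) = 1 := by
    rw [← Complex.exp_add, neg_add_cancel, Complex.exp_zero]
  calc Complex.exp (-(bb (1 / 2) - bb (1 / 2 - ξ))) =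
      Complex.exp (-(bb (1 / 2) - bb (1 / 2 - ξ))) *
        (Complex.exp (bb (1 / 2) - bb (1 / 2 - ξ)) * Complex.cos (Real.pi * ξ)) := by
        rw [h, mul_one]
    _ = Complex.cos (Real.pi * ξ) := by rw [← mul_assoc, h3, one_mul]

theorem nz_zero (i : Fin 6) : nz 0 i = 1 / 2 := by
  unfold nz
  rw [mul_zero, zero_div, add_zero]

section
variable {α : Fin 6 → ℝ}

theorem PG_e3 (hF : Fr α) (h1 : α 1 ≠ 0) (v : Fin 4 → ℂ) : PG α v 0 e3 0 =
    (bb (1 / 2 - lf v 1) - bb (lf v 1)) + (bb (1 / 2 - lf v 2) - bb (lf v 2)) -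
    (bb (1 / 2 - lf v 4) - bb (lf v 4)) - (bb (1 / 2 - lf v 5) - bb (lf v 5)) := by
  have hn := hF.nn
  have c1 : ctr α 1 ≠ 0 := h1
  have c4 : ctr α 4 ≠ 0 := fun h => h1 (hF.z14.2 h)
  have p1 : 0 < α 1 := lt_of_le_of_ne (hn 1) (Ne.symm h1)
  have p4 : 0 < α 4 := lt_of_le_of_ne (hn 4) (Ne.symm c4)
  have c2 : ctr α 2 ≠ 0 := by
    rw [ctr2 hF]
    linarith [hn 0]
  have c5 : ctr α 5 ≠ 0 := by
    rw [ctr5 hF]
    linarith [hn 3]
  have f0 : lf e3 0 = 0 := rfl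
  have f1 : lf e3 1 = 1 := rfl
  have f2 : lf e3 2 = 1 := by show (0 : ℂ) + 1 = 1; ring
  have f3 : lf e3 3 = 0 := rfl
  have f4 : lf e3 4 = -1 := by show (0 : ℂ) - 1 = -1; ring
  have f5 : lf e3 5 = -1 := by show (0 : ℂ) + (0 - 1) = -1; ring
  have z : ∀ i, lf e3 i = 0 → (if ctr α i = 0 then (0 : ℂ) else
      gT (nz 0 i) (lf v i) (s6 i * 0 / 2) (lf e3 i)) = 0 := by
    intro i hi
    split_ifs
    · rfl
    · rw [hi]
      unfold gT
      ring
  unfold PG
  rw [Fin.sum_univ_six, z 0 f0, z 3 f3, if_neg c1, if_neg c2, if_neg c4, if_neg c5, f1, f2, f4, f5]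
  simp only [nz_zero]
  unfold gT
  ring

theorem PG_01 (v : Fin 4 → ℂ) : 2 * PG α v 0 0 1 = ∑ i, (if ctr α i = 0 then 0 else
    s6 i * (bb (1 / 2) - bb (1 / 2 - lf v i))) := by
  unfold PG
  rw [Finset.mul_sum]
  refine Finset.sum_congr rfl fun i _ => ?_
  split_ifs
  · rw [mul_zero]
  · have : lf 0 i = 0 := by
      fin_cases i <;> simp [lf]
    rw [this, nz_zero]
    unfold gT
    ring

/-- the places of the arguments at `ζ = 0` -/
theorem placed (hF : Fr α) {r κ K C0 : ℝ} (hB : Blk α r κ K C0) {v : Fin 4 → ℂ}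
    (hv : v ∈ Metric.ball (vC α) r) {i : Fin 6} (hi : ctr α i ≠ 0) :
    lf v i ∈ St ∧ 1 / 2 - lf v i ∈ St := by
  have h := mem3 hF (hB.sml i hi).1 (hB.sml i hi).2 hv
    (ζ := 0) (by rw [norm_zero]; exact hB.r0)
  rw [nz_zero] at h
  exact ⟨Kc_St hB.r0 h.2.1, Kc_St hB.r0 h.2.2⟩

theorem small_log {z : ℂ} (h : Complex.exp (2 * z) = 1) (hz : ‖z‖ < 3) : z = 0 := by
  rw [Complex.exp_eq_one_iff] at h
  obtain ⟨n, hn⟩ := h
  have h1 : ‖2 * z‖ = |(n : ℝ)| * (2 * Real.pi) := by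
    rw [hn, norm_mul]
    have e1 : ‖(n : ℂ)‖ = |(n : ℝ)| := by
      rw [← Complex.ofReal_intCast, Complex.norm_real, Real.norm_eq_abs]
    have e2 : ‖(2 * Real.pi * Complex.I : ℂ)‖ = 2 * Real.pi := by
      rw [norm_mul, Complex.norm_I, mul_one, norm_mul, Complex.norm_real, Complex.norm_ofNat,
        Real.norm_of_nonneg Real.pi_pos.le]
    rw [e1, e2]
  rw [norm_mul, Complex.norm_ofNat] at h1
  have hp := Real.pi_gt_three
  have h2 : |(n : ℝ)| < 1 := by
    by_contra h3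
    push Not at h3
    nlinarith
  have h3 : n = 0 := by
    have h4 : |n| < 1 := by exact_mod_cast h2
    exact Int.abs_lt_one_iff.1 h4
  rw [h3] at hn
  simpa using hn

theorem critA (hF : Fr α) {r κ K C0 : ℝ} (hB : Blk α r κ K C0) {v : Fin 4 → ℂ}
    (hv : v ∈ Metric.ball (vC α) r) (ha : Adm α v) (h1 : α 1 ≠ 0) (h0 : PG α v 0 e3 0 = 0)
    (hs : ‖PG α v 0 0 1‖ < 3) : PG α v 0 0 1 = 0 := by
  refine small_log ?_ hs
  have hn := hF.nn
  have c1 : ctr α 1 ≠ 0 := h1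
  have c4 : ctr α 4 ≠ 0 := fun h => h1 (hF.z14.2 h)
  have p1 : 0 < α 1 := lt_of_le_of_ne (hn 1) (Ne.symm h1)
  have p4 : 0 < α 4 := lt_of_le_of_ne (hn 4) (Ne.symm c4)
  have c2 : ctr α 2 ≠ 0 := by
    rw [ctr2 hF]
    linarith [hn 0]
  have c5 : ctr α 5 ≠ 0 := by
    rw [ctr5 hF]
    linarith [hn 3]
  obtain ⟨a1, b1⟩ := placed hF hB hv c1
  obtain ⟨a2, b2⟩ := placed hF hB hv c2
  obtain ⟨a4, b4⟩ := placed hF hB hv c4
  obtain ⟨a5, b5⟩ := placed hF hB hv c5
  -- first equation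
  have l1 := exp_L a1 b1
  have l2 := exp_L a2 b2
  have l4 := exp_L a4 b4
  have l5 := exp_L a5 b5
  have hF0 := PG_e3 hF h1 v
  rw [h0] at hF0
  have hsum : (bb (1 / 2 - lf v 1) - bb (lf v 1)) + (bb (1 / 2 - lf v 2) - bb (lf v 2)) =
      (bb (1 / 2 - lf v 4) - bb (lf v 4)) + (bb (1 / 2 - lf v 5) - bb (lf v 5)) := by
    linear_combination -hF0
  have hexp := congrArg Complex.exp hsum
  rw [Complex.exp_add, Complex.exp_add] at hexp
  obtain ⟨E1, hE1⟩ : ∃ E, E = Complex.exp (bb (1 / 2 - lf v 1) - bb (lf v 1)) := ⟨_, rfl⟩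
  obtain ⟨E2, hE2⟩ : ∃ E, E = Complex.exp (bb (1 / 2 - lf v 2) - bb (lf v 2)) := ⟨_, rfl⟩
  obtain ⟨E4, hE4⟩ : ∃ E, E = Complex.exp (bb (1 / 2 - lf v 4) - bb (lf v 4)) := ⟨_, rfl⟩
  obtain ⟨E5, hE5⟩ : ∃ E, E = Complex.exp (bb (1 / 2 - lf v 5) - bb (lf v 5)) := ⟨_, rfl⟩
  rw [← hE1] at l1 hexp
  rw [← hE2] at l2 hexp
  rw [← hE4] at l4 hexp
  rw [← hE5] at l5 hexp
  obtain ⟨S1, hS1⟩ : ∃ S, S = Complex.sin (Real.pi * lf v 1) := ⟨_, rfl⟩
  obtain ⟨S2, hS2⟩ : ∃ S, S = Complex.sin (Real.pi * lf v 2) := ⟨_, rfl⟩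
  obtain ⟨S4, hS4⟩ : ∃ S, S = Complex.sin (Real.pi * lf v 4) := ⟨_, rfl⟩
  obtain ⟨S5, hS5⟩ : ∃ S, S = Complex.sin (Real.pi * lf v 5) := ⟨_, rfl⟩
  obtain ⟨C1, hC1⟩ : ∃ S, S = Complex.cos (Real.pi * lf v 1) := ⟨_, rfl⟩
  obtain ⟨C2, hC2⟩ : ∃ S, S = Complex.cos (Real.pi * lf v 2) := ⟨_, rfl⟩
  obtain ⟨C4, hC4⟩ : ∃ S, S = Complex.cos (Real.pi * lf v 4) := ⟨_, rfl⟩
  obtain ⟨C5, hC5⟩ : ∃ S, S = Complex.cos (Real.pi * lf v 5) := ⟨_, rfl⟩
  rw [← hS1, ← hC1] at l1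
  rw [← hS2, ← hC2] at l2
  rw [← hS4, ← hC4] at l4
  rw [← hS5, ← hC5] at l5
  have key : C1 * C2 * (S4 * S5) = C4 * C5 * (S1 * S2) := by
    rw [← l1, ← l2, ← l4, ← l5]
    linear_combination (S1 * S2 * S4 * S5) * hexp
  -- second equation
  have e0 : Complex.cos (Real.pi * lf v 0) = C1 * C2 + S1 * S2 := by
    have : (Real.pi * lf v 0 : ℂ) = Real.pi * lf v 2 - Real.pi * lf v 1 := by
      have : lf v 0 = lf v 2 - lf v 1 := by
        show v 0 = v 0 + v 3 - v 3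
        ring
      rw [this]
      ring
    rw [this, Complex.cos_sub, hC1, hC2, hS1, hS2]
    ring
  have e3' : Complex.cos (Real.pi * lf v 3) = C4 * C5 + S4 * S5 := by
    have : (Real.pi * lf v 3 : ℂ) = Real.pi * lf v 5 - Real.pi * lf v 4 := by
      have : lf v 3 = lf v 5 - lf v 4 := by
        show v 2 = v 2 + (v 1 - v 3) - (v 1 - v 3)
        ring
      rw [this]
      ring
    rw [this, Complex.cos_sub, hC4, hC5, hS4, hS5]
    ring
  have hcos : Complex.cos (Real.pi * lf v 0) * C4 * C5 =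
      C1 * C2 * Complex.cos (Real.pi * lf v 3) := by
    rw [e0, e3']
    linear_combination -key
  rw [PG_01, Complex.exp_sum, Fin.prod_univ_six, if_neg c1, if_neg c2, if_neg c4, if_neg c5]
  have t0 : Complex.exp (if ctr α 0 = 0 then 0 else s6 0 * (bb (1 / 2) - bb (1 / 2 - lf v 0))) =
      Complex.cos (Real.pi * lf v 0) := by
    split_ifs with h
    · have : lf v 0 = 0 := ha.1 h
      rw [this, Complex.exp_zero, mul_zero, Complex.cos_zero]
    · have : s6 0 = -1 := rfl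
      rw [this, neg_one_mul]
      exact exp_M' (placed hF hB hv h).2
  have t3 : Complex.exp (if ctr α 3 = 0 then 0 else s6 3 * (bb (1 / 2) - bb (1 / 2 - lf v 3))) *
      Complex.cos (Real.pi * lf v 3) = 1 := by
    split_ifs with h
    · have : lf v 3 = 0 := ha.2.2 h
      rw [this, Complex.exp_zero, mul_zero, Complex.cos_zero, mul_one]
    · have : s6 3 = 1 := rfl
      rw [this, one_mul]
      exact exp_M (placed hF hB hv h).2
  have t1 : Complex.exp (s6 1 * (bb (1 / 2) - bb (1 / 2 - lf v 1))) * C1 = 1 := by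
    have : s6 1 = 1 := rfl
    rw [this, one_mul, hC1]
    exact exp_M b1
  have t2 : Complex.exp (s6 2 * (bb (1 / 2) - bb (1 / 2 - lf v 2))) * C2 = 1 := by
    have : s6 2 = 1 := rfl
    rw [this, one_mul, hC2]
    exact exp_M b2
  have t4 : Complex.exp (s6 4 * (bb (1 / 2) - bb (1 / 2 - lf v 4))) = C4 := by
    have : s6 4 = -1 := rfl
    rw [this, neg_one_mul, hC4]
    exact exp_M' b4
  have t5 : Complex.exp (s6 5 * (bb (1 / 2) - bb (1 / 2 - lf v 5))) = C5 := by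
    have : s6 5 = -1 := rfl
    rw [this, neg_one_mul, hC5]
    exact exp_M' b5
  rw [t0, t4, t5]
  obtain ⟨T1, hT1⟩ : ∃ T, T = Complex.exp (s6 1 * (bb (1 / 2) - bb (1 / 2 - lf v 1))) := ⟨_, rfl⟩
  obtain ⟨T2, hT2⟩ : ∃ T, T = Complex.exp (s6 2 * (bb (1 / 2) - bb (1 / 2 - lf v 2))) := ⟨_, rfl⟩
  obtain ⟨T3, hT3⟩ : ∃ T, T = Complex.exp (if ctr α 3 = 0 then 0 else
    s6 3 * (bb (1 / 2) - bb (1 / 2 - lf v 3))) := ⟨_, rfl⟩
  rw [← hT1, ← hT2, ← hT3]
  rw [← hT1] at t1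
  rw [← hT2] at t2
  rw [← hT3] at t3
  calc Complex.cos (Real.pi * lf v 0) * T1 * T2 * T3 * C4 * C5 =
      (Complex.cos (Real.pi * lf v 0) * C4 * C5) * (T1 * T2 * T3) := by ring
    _ = (T1 * C1) * (T2 * C2) * (T3 * Complex.cos (Real.pi * lf v 3)) := by
        rw [hcos]
        ring
    _ = 1 := by rw [t1, t2, t3]; ring

/-- without inner corner the potential is even in `ζ` -/
theorem critB (hF : Fr α) {v : Fin 4 → ℂ} (ha : Adm α v) (h1 : α 1 = 0) : PG α v 0 0 1 = 0 := by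
  have h4 := hF.z14.1 h1
  obtain ⟨-, w, -⟩ := ha
  obtain ⟨w1, w3⟩ := w h1
  have e2 : ctr α 2 = α 0 := by rw [ctr2 hF, h1, add_zero]
  have e5 : ctr α 5 = α 3 := by rw [ctr5 hF, h4, add_zero]
  have e0 : ctr α 0 = α 0 := rfl
  have e1 : ctr α 1 = 0 := h1
  have e3' : ctr α 3 = α 3 := rfl
  have e4 : ctr α 4 = 0 := h4
  have l2 : lf v 2 = lf v 0 := by
    show v 0 + v 3 = v 0
    rw [w3, add_zero]
  have l5 : lf v 5 = lf v 3 := by
    show v 2 + (v 1 - v 3) = v 2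
    rw [w1, w3]
    ring
  have h := PG_01 (α := α) v
  rw [Fin.sum_univ_six, e0, e1, e2, e3', e4, e5, l2, l5, if_pos rfl, if_pos rfl] at h
  have s0 : s6 0 = -1 := rfl
  have s2 : s6 2 = 1 := rfl
  have s3 : s6 3 = 1 := rfl
  have s5 : s6 5 = -1 := rfl
  rw [s0, s2, s3, s5] at h
  have h2 : 2 * PG α v 0 0 1 = 0 := by
    rw [h]
    split_ifs <;> ring
  rcases mul_eq_zero.1 h2 with h3 | h3
  · norm_num at h3
  · exact h3

/-! ### part B: the second derivatives -/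

theorem lf_zero (i : Fin 6) : lf 0 i = 0 := by
  fin_cases i <;> simp [lf]

theorem lf_smul (t : ℂ) (u : Fin 4 → ℂ) (i : Fin 6) : lf (t • u) i = t * lf u i := by
  have := lf_lin 0 u t i
  rwa [zero_add, lf_zero, zero_add] at this

theorem PH_lin (v : Fin 4 → ℂ) (ζ : ℂ) (u : Fin 4 → ℂ) (x y : ℂ) (u' : Fin 4 → ℂ) (b' : ℂ) :
    PH α v ζ (x • u) y u' b' = x * PH α v ζ u 0 u' b' + y * PH α v ζ 0 1 u' b' := by
  unfold PH
  rw [Finset.mul_sum, Finset.mul_sum, ← Finset.sum_add_distrib]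
  refine Finset.sum_congr rfl fun i _ => ?_
  split_ifs
  · ring
  · rw [lf_smul, lf_zero]
    unfold hT
    ring

theorem PH_symm (v : Fin 4 → ℂ) (ζ : ℂ) (u : Fin 4 → ℂ) (b : ℂ) (u' : Fin 4 → ℂ) (b' : ℂ) :
    PH α v ζ u b u' b' = PH α v ζ u' b' u b := by
  unfold PH
  refine Finset.sum_congr rfl fun i _ => ?_
  split_ifs
  · rfl
  · unfold hT
    ring

theorem ct_real (x : ℝ) : ct (x : ℂ) =
    ((Real.pi * (Real.cos (Real.pi * x) / Real.sin (Real.pi * x)) : ℝ) : ℂ) := by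
  unfold ct
  push_cast
  rfl

theorem hT_im (ν ξ a b a' b' : ℝ) : (hT (ν : ℂ) (ξ : ℂ) (a : ℂ) (b : ℂ) (a' : ℂ) (b' : ℂ)).im = 0 := by
  unfold hT
  rw [← Complex.ofReal_sub, ct_real, ct_real, ct_real]
  simp only [← Complex.ofReal_sub, ← Complex.ofReal_mul, ← Complex.ofReal_add]
  exact Complex.ofReal_im _

/-- the second derivatives at the centre are real -/
theorem PH_real (hF : Fr α) (u u' : Fin 4 → ℝ) (b b' : ℝ) :
    (PH α (vC α) 0 (fun i => (u i : ℂ)) b (fun i => (u' i : ℂ)) b').im = 0 := by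
  unfold PH
  rw [Complex.im_sum]
  refine Finset.sum_eq_zero fun i _ => ?_
  split_ifs
  · rfl
  · rw [lf_vC hF i, nz_zero, lf_real, lf_real, s6_eq]
    have h := hT_im (1 / 2) (ctr α i) (sr i * b / 2) (lr u i) (sr i * b' / 2) (lr u' i)
    push_cast at h ⊢
    exact h

/-- continuity of the second derivatives at the centre -/
theorem PH_cont (hF : Fr α) {r κ K C0 : ℝ} (hB : Blk α r κ K C0) (u u' : Fin 4 → ℂ) (b b' : ℂ) :
    ContinuousAt (fun p : (Fin 4 → ℂ) × ℂ => PH α p.1 p.2 u b u' b') (vC α, 0) := by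
  unfold PH
  refine tendsto_finsetSum _ fun i _ => ?_
  by_cases h : ctr α i = 0
  · simp only [if_pos h]
    exact tendsto_const_nhds
  · simp only [if_neg h]
    have hmem := mem3 hF (hB.sml i h).1 (hB.sml i h).2 (v := vC α) (ζ := 0)
      (Metric.mem_ball_self hB.r0) (by rw [norm_zero]; exact hB.r0)
    have hs := Kc_St hB.r0
    have hopen : IsOpen St := by
      have e : St = {x : ℂ | 0 < x.re} ∩ {x : ℂ | x.re < 1} := rfl
      rw [e]
      exact (isOpen_lt continuous_const Complex.continuous_re).inter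
        (isOpen_lt Complex.continuous_re continuous_const)
    have hlf : Continuous fun p : (Fin 4 → ℂ) × ℂ => lf p.1 i := by
      have hp : ∀ k : Fin 4, Continuous fun p : (Fin 4 → ℂ) × ℂ => p.1 k := fun k =>
        (continuous_apply k).comp continuous_fst
      fin_cases i
      · exact hp 0
      · exact hp 3
      · exact (hp 0).add (hp 3)
      · exact hp 2
      · exact (hp 1).sub (hp 3)
      · exact (hp 2).add ((hp 1).sub (hp 3))
    have hnz : Continuous fun p : (Fin 4 → ℂ) × ℂ => nz p.2 i := by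
      unfold nz
      fun_prop
    have hc : ∀ (f : (Fin 4 → ℂ) × ℂ → ℂ), Continuous f → f (vC α, 0) ∈ St →
        ContinuousAt (fun p => ct (f p)) (vC α, 0) := by
      intro f hf hm
      exact ContinuousAt.comp (g := ct) (ct_cont.continuousAt (hopen.mem_nhds hm)) hf.continuousAt
    have k1 := hc _ hnz (hs hmem.1)
    have k2 := hc _ hlf (hs hmem.2.1)
    have k3 := hc _ (hnz.sub hlf) (hs hmem.2.2)
    unfold hT
    exact ((continuousAt_const.mul (k1.sub k3)).add (continuousAt_const.mul k3)).sub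
      (continuousAt_const.mul (k3.add k2))

/-- the derivative at every point of a line -/
theorem der_at {r κ K C0 : ℝ} (hB : Blk α r κ K C0) {u u' v : Fin 4 → ℂ} {b b' ζ t : ℂ}
    (i1 : v + t • u ∈ Metric.ball (vC α) r) (i2 : ‖ζ + t * b‖ < r) :
    HasDerivAt (fun s : ℂ => PG α (v + s • u) (ζ + s * b) u' b')
      (PH α (v + t • u) (ζ + t * b) u b u' b') t := by
  have h1 := (hB.der _ i1 _ i2 u u' b b').2
  have h3 : HasDerivAt (fun s : ℂ => s - t) 1 t := (hasDerivAt_id _).sub_const _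
  have h4 := HasDerivAt.comp (h₂ := fun s : ℂ => PG α (v + t • u + s • u)
    (ζ + t * b + s * b) u' b') (h := fun s : ℂ => s - t) t
    (by rw [sub_self]; exact h1) h3
  rw [mul_one] at h4
  refine h4.congr_of_eventuallyEq (Eventually.of_forall fun s => ?_)
  show PG α (v + s • u) (ζ + s * b) u' b' = PG α (v + t • u + (s - t) • u)
    (ζ + t * b + (s - t) * b) u' b'
  have e1 : v + t • u + (s - t) • u = v + s • u := by
    rw [sub_smul]
    abel
  have e2 : ζ + t * b + (s - t) * b = ζ + s * b := by ring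
  rw [e1, e2]

/-- the mean value inequality -/
theorem mv {r κ K C0 : ℝ} (hB : Blk α r κ K C0) {ρ M : ℝ} (hρ : ρ ≤ r) {u u' : Fin 4 → ℂ}
    {b b' c : ℂ} (hbd : ∀ w ∈ Metric.ball (vC α) ρ, ∀ η : ℂ, ‖η‖ < ρ →
      ‖PH α w η u b u' b' - c‖ ≤ M) {v : Fin 4 → ℂ} {ζ : ℂ} (hv : v ∈ Metric.ball (vC α) ρ)
    (hv' : v + u ∈ Metric.ball (vC α) ρ) (hζ : ‖ζ‖ < ρ) (hζ' : ‖ζ + b‖ < ρ) :
    ‖PG α (v + u) (ζ + b) u' b' - PG α v ζ u' b' - c‖ ≤ M := by
  have hin : ∀ t ∈ Set.Icc (0 : ℝ) 1, v + (t : ℂ) • u ∈ Metric.ball (vC α) ρ ∧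
      ‖ζ + (t : ℂ) * b‖ < ρ := by
    intro t ht
    constructor
    · have h := (convex_ball (vC α) ρ) hv hv' (sub_nonneg.2 ht.2) ht.1 (by ring)
      have e : (1 - t) • v + t • (v + u) = v + (t : ℂ) • u := by
        ext j
        simp
        ring
      rwa [e] at h
    · have h := (convex_ball (0 : ℂ) ρ) (mem_ball_zero_iff.2 hζ) (mem_ball_zero_iff.2 hζ')
        (sub_nonneg.2 ht.2) ht.1 (by ring)
      have e : (1 - t) • ζ + t • (ζ + b) = ζ + (t : ℂ) * b := by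
        simp
        ring
      rw [e] at h
      exact mem_ball_zero_iff.1 h
  have hd : ∀ t ∈ Set.Icc (0 : ℝ) 1, HasDerivWithinAt
      (fun t : ℝ => PG α (v + (t : ℂ) • u) (ζ + (t : ℂ) * b) u' b' - (t : ℂ) * c)
      (PH α (v + (t : ℂ) • u) (ζ + (t : ℂ) * b) u b u' b' - c) (Set.Icc 0 1) t := by
    intro t ht
    obtain ⟨i1, i2⟩ := hin t ht
    have h2 := der_at (u' := u') (b' := b') hB (Metric.ball_subset_ball hρ i1)
      (lt_of_lt_of_le i2 hρ)
    have h3 : HasDerivAt (fun s : ℂ => s * c) c (t : ℂ) := by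
      have := (hasDerivAt_id (t : ℂ)).mul_const c
      rwa [one_mul] at this
    exact (h2.sub h3).comp_ofReal.hasDerivWithinAt
  have h := norm_image_sub_le_of_norm_deriv_le_segment_01' hd (C := M) (fun t ht => by
    obtain ⟨i1, i2⟩ := hin t ⟨ht.1, ht.2.le⟩
    exact hbd _ i1 _ i2)
  simp only [Complex.ofReal_one, Complex.ofReal_zero, one_smul, zero_smul, one_mul, zero_mul,
    add_zero, sub_zero] at h
  have e : PG α (v + u) (ζ + b) u' b' - PG α v ζ u' b' - c =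
      PG α (v + u) (ζ + b) u' b' - c - PG α v ζ u' b' := by ring
  rw [e]
  exact h

/-- the real unit vector -/
def er : Fin 4 → ℝ := ![0, 0, 0, 1]

theorem er_eq : (fun i => (er i : ℂ)) = e3 := by
  ext i
  fin_cases i <;> simp [er, e3]

theorem e3_norm : ‖e3‖ ≤ 1 := by
  rw [pi_norm_le_iff_of_nonneg zero_le_one]
  intro i
  fin_cases i <;> simp [e3]

/-- the values at the centre -/
theorem centre (hF : Fr α) {r κ K C0 : ℝ} (hB : Blk α r κ K C0) : ∃ q0 p0 s0 : ℝ,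
    PH α (vC α) 0 e3 0 e3 0 = (q0 : ℂ) ∧ PH α (vC α) 0 e3 0 0 1 = (p0 : ℂ) ∧
    PH α (vC α) 0 0 1 0 1 = (s0 : ℂ) ∧ s0 ≤ -(2 * κ) ∧
    (α 1 ≠ 0 → q0 ≤ -(2 * κ) ∧ s0 - p0 ^ 2 / q0 ≤ -(2 * κ)) := by
  have h1 := PH_real hF er er 0 0
  have h2 := PH_real hF er 0 0 1
  have h3 := PH_real hF 0 0 1 1
  have ez : (fun i : Fin 4 => (((0 : Fin 4 → ℝ) i : ℝ) : ℂ)) = 0 := by
    ext i
    simp
  rw [er_eq, Complex.ofReal_zero] at h1
  rw [er_eq, ez, Complex.ofReal_zero, Complex.ofReal_one] at h2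
  rw [ez, Complex.ofReal_one] at h3
  have r1 : ∀ z : ℂ, z.im = 0 → z = (z.re : ℂ) := by
    intro z hz
    apply Complex.ext
    · simp
    · simp [hz]
  have hκ := hB.κ0
  obtain ⟨q0, hq⟩ : ∃ q0 : ℝ, q0 = (PH α (vC α) 0 e3 0 e3 0).re := ⟨_, rfl⟩
  obtain ⟨p0, hp⟩ : ∃ p0 : ℝ, p0 = (PH α (vC α) 0 e3 0 0 1).re := ⟨_, rfl⟩
  obtain ⟨s0, hs⟩ : ∃ s0 : ℝ, s0 = (PH α (vC α) 0 0 1 0 1).re := ⟨_, rfl⟩
  have hq' : PH α (vC α) 0 e3 0 e3 0 = (q0 : ℂ) := by rw [hq]; exact r1 _ h1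
  have hp' : PH α (vC α) 0 e3 0 0 1 = (p0 : ℂ) := by rw [hp]; exact r1 _ h2
  have hs' : PH α (vC α) 0 0 1 0 1 = (s0 : ℂ) := by rw [hs]; exact r1 _ h3
  have hp'' : PH α (vC α) 0 0 1 e3 0 = (p0 : ℂ) := by rw [PH_symm]; exact hp'
  have hform : ∀ x y : ℝ, (α 1 = 0 → x = 0) → q0 * x ^ 2 + 2 * p0 * x * y + s0 * y ^ 2 ≤
      -(2 * κ) * (x ^ 2 + y ^ 2) := by
    intro x y hx
    have h := hB.hes (vC α) (Metric.mem_ball_self hB.r0) 0 (by rw [norm_zero]; exact hB.r0)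
      (fun i => x * er i) y (by
        refine ⟨fun _ => ?_, fun h => ?_, fun _ => ?_⟩
        · simp [er]
        · rw [hx h]
          simp
        · simp [er])
    have e : (fun i => (((fun i => x * er i) i : ℝ) : ℂ)) = (x : ℂ) • e3 := by
      rw [← er_eq]
      ext i
      simp
    rw [e, PH_lin, PH_symm (vC α) 0 e3 0, PH_symm (vC α) 0 0 1, PH_lin, PH_lin, hq', hp', hs',
      hp''] at h
    have e2 : (x : ℂ) * (x * q0 + y * p0) + y * (x * p0 + y * s0) =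
        ((q0 * x ^ 2 + 2 * p0 * x * y + s0 * y ^ 2 : ℝ) : ℂ) := by
      push_cast
      ring
    rw [e2, Complex.ofReal_re] at h
    refine h.trans (le_of_eq ?_)
    rw [Fin.sum_univ_four]
    simp [er]
  refine ⟨q0, p0, s0, hq', hp', hs', ?_, fun h1 => ?_⟩
  · have := hform 0 1 (fun _ => rfl)
    linarith
  · have hq1 := hform 1 0 (fun h => absurd h h1)
    have hq2 : q0 ≤ -(2 * κ) := by linarith
    refine ⟨hq2, ?_⟩
    have hq3 : q0 ≠ 0 := by
      intro h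
      rw [h] at hq2
      linarith
    have h2 := hform (-(p0 / q0)) 1 (fun h => absurd h h1)
    have e : q0 * (-(p0 / q0)) ^ 2 + 2 * p0 * -(p0 / q0) * 1 + s0 * 1 ^ 2 =
        s0 - p0 ^ 2 / q0 := by
      field_simp
      ring
    rw [e] at h2
    nlinarith [sq_nonneg (-(p0 / q0))]

/-- JOB ZZ. -/
theorem task_ZZ : S_ZZ := by
  intro hLC hLTd α r κ K C0 hF hB
  obtain ⟨q0, p0, s0, hq0, hp0, hs0, hs1, hqp⟩ := centre hF hB
  have hκ := hB.κ0
  have hr := hB.r0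
  have hC1 := hB.C1
  -- near the centre
  have near : ∀ ε : ℝ, 0 < ε → ∃ ρ : ℝ, 0 < ρ ∧ ρ < r ∧
      (∀ w ∈ Metric.ball (vC α) ρ, ‖PG α w 0 0 1‖ < 3) ∧
      (∀ w ∈ Metric.ball (vC α) ρ, ∀ η : ℂ, ‖η‖ < ρ → ∀ x y : ℂ,
        ‖PH α w η (x • e3) y e3 0 - (x * q0 + y * p0)‖ ≤ ε * (‖x‖ + ‖y‖) ∧
        ‖PH α w η (x • e3) y 0 1 - (x * p0 + y * s0)‖ ≤ ε * (‖x‖ + ‖y‖)) := by
    intro ε hε
    have c1 := (PH_cont hF hB e3 e3 0 0).eventually (Metric.ball_mem_nhds _ hε)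
    have c2 := (PH_cont hF hB e3 0 0 1).eventually (Metric.ball_mem_nhds _ hε)
    have c3 := (PH_cont hF hB 0 0 1 1).eventually (Metric.ball_mem_nhds _ hε)
    obtain ⟨ρ0, hρ0, hb⟩ := Metric.eventually_nhds_iff_ball.1 (c1.and (c2.and c3))
    have hCi : 0 < 1 / C0 := by positivity
    refine ⟨min ρ0 (min (r / 2) (1 / C0)), lt_min hρ0 (lt_min (by linarith) hCi),
      lt_of_le_of_lt ((min_le_right _ _).trans (min_le_left _ _)) (by linarith), ?_, ?_⟩
    · intro w hw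
      have hw' := mem_ball_iff_norm.1 hw
      have hwr : ‖w - vC α‖ < r := lt_of_lt_of_le hw'
        (((min_le_right _ _).trans (min_le_left _ _)).trans (by linarith))
      have hwC : ‖w - vC α‖ < 1 / C0 := lt_of_lt_of_le hw'
        ((min_le_right _ _).trans (min_le_right _ _))
      have h := mv (ρ := r) (M := C0 * ‖w - vC α‖) (u := w - vC α) (u' := 0) (b := 0) (b' := 1)
        (c := 0) (v := vC α) (ζ := 0) hB le_rfl (fun w' hw' η hη => by
          have := hB.bdd w' hw' η hη (w - vC α) 0 0 1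
          rw [norm_zero, norm_zero, norm_one, zero_add, add_zero, mul_one] at this
          rw [sub_zero]
          exact this) (Metric.mem_ball_self hr) (by
          rw [add_sub_cancel]
          exact mem_ball_iff_norm.2 hwr) (by rw [norm_zero]; exact hr)
        (by rw [add_zero, norm_zero]; exact hr)
      have hc : PG α (vC α) 0 0 1 = 0 := by
        have := hB.cen 0 1 ⟨fun _ => rfl, fun _ => ⟨rfl, rfl⟩, fun _ => rfl⟩
        rw [this]
        simp
      rw [add_sub_cancel, add_zero, hc, sub_zero, sub_zero] at h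
      have h2 : C0 * ‖w - vC α‖ < C0 * (1 / C0) := mul_lt_mul_of_pos_left hwC (by linarith)
      rw [mul_one_div_cancel (by linarith)] at h2
      linarith
    · intro w hw η hη x y
      have hmem : (w, η) ∈ Metric.ball (vC α, (0 : ℂ)) ρ0 := by
        rw [← ball_prod_same]
        exact ⟨Metric.ball_subset_ball (min_le_left _ _) hw,
          mem_ball_zero_iff.2 (lt_of_lt_of_le hη (min_le_left _ _))⟩
      obtain ⟨b1, b2, b3⟩ := hb _ hmem
      rw [dist_eq_norm] at b1 b2 b3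
      dsimp only at b1 b2 b3
      rw [hq0] at b1
      rw [hp0] at b2
      rw [hs0] at b3
      have b4 : ‖PH α w η 0 1 e3 0 - p0‖ < ε := by
        rw [PH_symm]
        exact b2
      constructor
      · rw [PH_lin]
        have e : x * PH α w η e3 0 e3 0 + y * PH α w η 0 1 e3 0 - (x * q0 + y * p0) =
            x * (PH α w η e3 0 e3 0 - q0) + y * (PH α w η 0 1 e3 0 - p0) := by ring
        rw [e]
        refine (norm_add_le _ _).trans ?_
        rw [norm_mul, norm_mul]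
        have k1 := mul_le_mul_of_nonneg_left b1.le (norm_nonneg x)
        have k2 := mul_le_mul_of_nonneg_left b4.le (norm_nonneg y)
        linarith
      · rw [PH_lin]
        have e : x * PH α w η e3 0 0 1 + y * PH α w η 0 1 0 1 - (x * p0 + y * s0) =
            x * (PH α w η e3 0 0 1 - p0) + y * (PH α w η 0 1 0 1 - s0) := by ring
        rw [e]
        refine (norm_add_le _ _).trans ?_
        rw [norm_mul, norm_mul]
        have k1 := mul_le_mul_of_nonneg_left b2.le (norm_nonneg x)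
        have k2 := mul_le_mul_of_nonneg_left b3.le (norm_nonneg y)
        linarith
  by_cases h1 : α 1 = 0
  · -- no inner corner
    refine ⟨-s0, by linarith, fun ε hε => ?_⟩
    obtain ⟨ρ, hρ, hρr, -, hnear⟩ := near ε hε
    refine ⟨ρ, hρ, hρr, fun v hv ha ζ hζ _ => ?_⟩
    have h := mv (ρ := ρ) (M := ε * ‖ζ‖) (u := (0 : ℂ) • e3) (u' := 0) (b := ζ) (b' := 1)
      (c := ζ * s0) (v := v) (ζ := 0) hB hρr.le (fun w hw η hη => by
        have := (hnear w hw η hη 0 ζ).2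
        rw [norm_zero, zero_add, zero_mul, zero_add] at this
        exact this) hv (by rw [zero_smul, add_zero]; exact hv) (by rw [norm_zero]; exact hρ)
        (by rw [zero_add]; exact hζ)
    rw [zero_smul, add_zero, zero_add, critB hF ha h1, sub_zero] at h
    have e : PG α v ζ 0 1 + ((-s0 : ℝ) : ℂ) * ζ = PG α v ζ 0 1 - ζ * s0 := by
      push_cast
      ring
    rw [e]
    exact h
  · -- the main case
    obtain ⟨hq1, hsp⟩ := hqp h1
    have hq2 : q0 < 0 := by linarith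
    have hqn : (q0 : ℂ) ≠ 0 := by exact_mod_cast hq2.ne
    have hqa : |q0| = -q0 := abs_of_neg hq2
    refine ⟨-(s0 - p0 ^ 2 / q0), by linarith, fun ε hε => ?_⟩
    obtain ⟨Q, hQ⟩ : ∃ Q : ℝ, Q = |q0| := ⟨_, rfl⟩
    have hQ0 : 0 < Q := by rw [hQ]; exact abs_pos.2 hq2.ne
    obtain ⟨P, hP⟩ : ∃ P : ℝ, P = |p0| := ⟨_, rfl⟩
    have hP0 : 0 ≤ P := by rw [hP]; exact abs_nonneg _
    obtain ⟨M1, hM1⟩ : ∃ M1 : ℝ, M1 = 5 * (P + 1) / Q := ⟨_, rfl⟩
    have hM10 : 0 < M1 := by rw [hM1]; positivity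
    obtain ⟨M2, hM2⟩ : ∃ M2 : ℝ, M2 = (M1 + 1) * (P / Q + 1) := ⟨_, rfl⟩
    have hM20 : 0 < M2 := by rw [hM2]; positivity
    obtain ⟨δ, hδ⟩ : ∃ δ : ℝ, δ = min (ε / M2) (min (Q / 2) (1 / 5)) := ⟨_, rfl⟩
    have hδ0 : 0 < δ := by
      rw [hδ]
      exact lt_min (by positivity) (lt_min (by positivity) (by norm_num))
    have hδ1 : δ * M2 ≤ ε := by
      have : δ ≤ ε / M2 := by rw [hδ]; exact min_le_left _ _
      rwa [le_div_iff₀ hM20] at this
    have hδ2 : δ ≤ Q / 2 := by rw [hδ]; exact (min_le_right _ _).trans (min_le_left _ _)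
    have hδ3 : δ ≤ 1 / 5 := by rw [hδ]; exact (min_le_right _ _).trans (min_le_right _ _)
    obtain ⟨ρ1, hρ1, hρ1r, hsm, hnear⟩ := near δ hδ0
    obtain ⟨ρ, hρe⟩ : ∃ ρ : ℝ, ρ = ρ1 / (2 * (1 + M1)) := ⟨_, rfl⟩
    have hρ0 : 0 < ρ := by rw [hρe]; positivity
    have hρ2 : ρ * (1 + M1) = ρ1 / 2 := by
      rw [hρe]
      field_simp
    have hρ3 : ρ < ρ1 := by nlinarith
    refine ⟨ρ, hρ0, by linarith, fun v hv ha ζ hζ hcrit => ?_⟩
    have hFz := hcrit h1
    have hv' := mem_ball_iff_norm.1 hv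
    have hin : ∀ x : ℂ, ‖x‖ ≤ M1 * ‖ζ‖ → v + x • e3 ∈ Metric.ball (vC α) ρ1 := by
      intro x hx
      rw [mem_ball_iff_norm]
      have e : v + x • e3 - vC α = (v - vC α) + x • e3 := by abel
      rw [e]
      have k1 : ‖x • e3‖ ≤ M1 * ρ := by
        rw [norm_smul]
        have k2 : ‖x‖ * ‖e3‖ ≤ ‖x‖ * 1 := mul_le_mul_of_nonneg_left e3_norm (norm_nonneg _)
        have k3 : M1 * ‖ζ‖ ≤ M1 * ρ := mul_le_mul_of_nonneg_left hζ.le hM10.le
        linarith
      have := norm_add_le (v - vC α) (x • e3)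
      nlinarith
    have mvF : ∀ (x y η : ℂ), ‖x‖ ≤ M1 * ‖ζ‖ → ‖η‖ < ρ1 → ‖η + y‖ < ρ1 →
        ‖PG α (v + x • e3) (η + y) e3 0 - PG α v η e3 0 - (x * q0 + y * p0)‖ ≤
          δ * (‖x‖ + ‖y‖) := by
      intro x y η hx hη hηy
      exact mv hB hρ1r.le (fun w hw η' hη' => (hnear w hw η' hη' x y).1)
        (Metric.ball_subset_ball hρ3.le hv) (hin x hx) hη hηy
    have mvG : ∀ (x y η : ℂ), ‖x‖ ≤ M1 * ‖ζ‖ → ‖η‖ < ρ1 → ‖η + y‖ < ρ1 →
        ‖PG α (v + x • e3) (η + y) 0 1 - PG α v η 0 1 - (x * p0 + y * s0)‖ ≤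
          δ * (‖x‖ + ‖y‖) := by
      intro x y η hx hη hηy
      exact mv hB hρ1r.le (fun w hw η' hη' => (hnear w hw η' hη' x y).2)
        (Metric.ball_subset_ball hρ3.le hv) (hin x hx) hη hηy
    have hζρ : ‖ζ‖ < ρ1 := by linarith
    have n0 : ‖(0 : ℂ)‖ < ρ1 := by rw [norm_zero]; exact hρ1
    have hz0 := norm_nonneg ζ
    -- the critical index at `0`
    obtain ⟨x0, hx0, hFx⟩ : ∃ x0 : ℂ, ‖x0‖ ≤ M1 * ‖ζ‖ ∧ PG α (v + x0 • e3) 0 e3 0 = 0 := by
      have hf0 := mvF 0 (-ζ) ζ (by rw [norm_zero]; positivity) hζρ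
        (by rw [add_neg_cancel]; exact n0)
      rw [zero_smul, add_zero, add_neg_cancel, hFz, sub_zero, norm_zero, zero_add, norm_neg,
        zero_mul, zero_add] at hf0
      have hf0' : ‖PG α v 0 e3 0‖ ≤ (P + δ) * ‖ζ‖ := by
        have e : PG α v 0 e3 0 = (PG α v 0 e3 0 - -ζ * p0) + -ζ * p0 := by ring
        rw [e]
        refine (norm_add_le _ _).trans ?_
        rw [norm_mul, norm_neg, Complex.norm_real, Real.norm_eq_abs, ← hP]
        linarith
      by_cases hζ0 : ζ = 0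
      · refine ⟨0, by rw [norm_zero]; positivity, ?_⟩
        rw [zero_smul, add_zero]
        rw [hζ0, norm_zero, mul_zero] at hf0'
        exact norm_le_zero_iff.1 hf0'
      · have hz1 : 0 < ‖ζ‖ := norm_pos_iff.2 hζ0
        obtain ⟨R, hR⟩ : ∃ R : ℝ, R = M1 * ‖ζ‖ := ⟨_, rfl⟩
        have hR0 : 0 < R := by rw [hR]; positivity
        obtain ⟨f, hf⟩ : ∃ f : ℂ → ℂ, f = fun x => PG α (v + x • e3) 0 e3 0 := ⟨_, rfl⟩
        have hlow : ∀ x : ℂ, ‖x‖ ≤ R → Q / 2 * ‖x‖ ≤ ‖f x - f 0‖ := by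
          intro x hx
          have h := mvF x 0 0 (by rw [← hR]; exact hx) n0 (by rw [add_zero]; exact n0)
          rw [add_zero, norm_zero, add_zero, zero_mul, add_zero] at h
          have e : f x - f 0 = PG α (v + x • e3) 0 e3 0 - PG α v 0 e3 0 := by
            rw [hf]
            simp
          rw [← e] at h
          have k1 : ‖x * (q0 : ℂ)‖ = Q * ‖x‖ := by
            rw [norm_mul, Complex.norm_real, Real.norm_eq_abs, hQ, mul_comm]
          have k2 := norm_sub_norm_le (x * (q0 : ℂ)) (x * q0 - (f x - f 0))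
          have k3 : x * (q0 : ℂ) - (x * q0 - (f x - f 0)) = f x - f 0 := by ring
          rw [k3, k1, norm_sub_rev (x * (q0 : ℂ))] at k2
          have k4 := mul_le_mul_of_nonneg_right hδ2 (norm_nonneg x)
          linarith
        have hdiff : DifferentiableOn ℂ f (closure (Metric.ball 0 R)) := by
          rw [closure_ball _ hR0.ne']
          intro x hx
          have hxn : ‖x‖ ≤ M1 * ‖ζ‖ := by
            rw [← hR]
            simpa using hx
          have hd := der_at (u := e3) (u' := e3) (b := 0) (b' := 0) (ζ := 0) (v := v) (t := x) hB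
            (Metric.ball_subset_ball hρ1r.le (hin x hxn))
            (by rw [mul_zero, add_zero, norm_zero]; exact hr)
          have e : f = fun s : ℂ => PG α (v + s • e3) (0 + s * 0) e3 0 := by
            rw [hf]
            ext s
            rw [mul_zero, add_zero]
          rw [e]
          exact hd.differentiableAt.differentiableWithinAt
        have himg := hdiff.diffContOnCl.ball_subset_image_closedBall (ε := Q / 2 * R) hR0
          (fun z hz => by
            have hzn : ‖z‖ = R := by simpa using hz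
            have := hlow z hzn.le
            rwa [hzn] at this)
          (by
            have h2 : ∀ᶠ z in 𝓝[≠] (0 : ℂ), f z ≠ f 0 := by
              have h3 : ∀ᶠ z in 𝓝[≠] (0 : ℂ), z ∈ Metric.ball (0 : ℂ) R :=
                nhdsWithin_le_nhds (Metric.ball_mem_nhds _ hR0)
              filter_upwards [h3, self_mem_nhdsWithin] with z hz1 hz2
              intro h4
              have h5 := hlow z (by
                have := mem_ball_zero_iff.1 hz1
                exact this.le)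
              rw [h4, sub_self, norm_zero] at h5
              have h6 : 0 < ‖z‖ := norm_pos_iff.2 hz2
              have : 0 < Q / 2 * ‖z‖ := by positivity
              linarith
            exact h2.frequently.filter_mono nhdsWithin_le_nhds)
        have hmem : (0 : ℂ) ∈ Metric.ball (f 0) (Q / 2 * R / 2) := by
          rw [mem_ball_iff_norm, zero_sub, norm_neg]
          have e : f 0 = PG α v 0 e3 0 := by
            rw [hf]
            simp
          rw [e]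
          refine lt_of_le_of_lt hf0' ?_
          have e2 : Q / 2 * R / 2 = 5 / 4 * (P + 1) * ‖ζ‖ := by
            rw [hR, hM1]
            field_simp
            ring
          rw [e2]
          refine mul_lt_mul_of_pos_right ?_ hz1
          linarith
        obtain ⟨x0, hx0, hfx⟩ := himg hmem
        refine ⟨x0, ?_, ?_⟩
        · rw [← hR]
          simpa using hx0
        · rw [hf] at hfx
          exact hfx
    have hadm : Adm α (v + x0 • e3) := by
      refine ⟨fun h => ?_, fun h => absurd h h1, fun h => ?_⟩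
      · show v 0 + x0 * e3 0 = 0
        rw [ha.1 h]
        simp [e3]
      · show v 2 + x0 * e3 2 = 0
        rw [ha.2.2 h]
        simp [e3]
    have hG0 := critA hF hB (Metric.ball_subset_ball hρ1r.le (hin x0 hx0)) hadm h1 hFx
      (hsm _ (hin x0 hx0))
    have g1 := mvF x0 (-ζ) ζ hx0 hζρ (by rw [add_neg_cancel]; exact n0)
    have g2 := mvG x0 (-ζ) ζ hx0 hζρ (by rw [add_neg_cancel]; exact n0)
    rw [add_neg_cancel, hFx, hFz, norm_neg] at g1
    rw [add_neg_cancel, hG0, norm_neg] at g2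
    obtain ⟨E1, hE1⟩ : ∃ E : ℂ, E = 0 - 0 - (x0 * q0 + -ζ * p0) := ⟨_, rfl⟩
    obtain ⟨E2, hE2⟩ : ∃ E : ℂ, E = 0 - PG α v ζ 0 1 - (x0 * p0 + -ζ * s0) := ⟨_, rfl⟩
    rw [← hE1] at g1
    rw [← hE2] at g2
    have hfin : PG α v ζ 0 1 + ((-(s0 - p0 ^ 2 / q0) : ℝ) : ℂ) * ζ = (p0 / q0) * E1 - E2 := by
      rw [hE1, hE2]
      push_cast
      field_simp
      ring
    rw [hfin]
    have k1 : δ * (‖x0‖ + ‖ζ‖) ≤ δ * (M1 + 1) * ‖ζ‖ := by
      have := mul_le_mul_of_nonneg_left hx0 hδ0.le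
      linarith
    have k2 : ‖(p0 / q0 : ℂ)‖ = P / Q := by
      rw [norm_div, Complex.norm_real, Complex.norm_real, Real.norm_eq_abs, Real.norm_eq_abs, hP, hQ]
    refine (norm_sub_le _ _).trans ?_
    rw [norm_mul, k2]
    have k3 : P / Q * ‖E1‖ ≤ P / Q * (δ * (M1 + 1) * ‖ζ‖) :=
      mul_le_mul_of_nonneg_left (g1.trans k1) (by positivity)
    have k4 : P / Q * (δ * (M1 + 1) * ‖ζ‖) + δ * (M1 + 1) * ‖ζ‖ = δ * M2 * ‖ζ‖ := by
      rw [hM2]
      ring
    have k5 : δ * M2 * ‖ζ‖ ≤ ε * ‖ζ‖ := mul_le_mul_of_nonneg_right hδ1 hz0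
    linarith [g2.trans k1]

end

end Pool.Agent.Q176.HT
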